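import Pool.Agent.H4R2.LO.Main
import Pool.Agent.H4R2.HD.Stubs

/-!
# Definitions for: the Anderson model with uniform disorder in high dimension (helper4, team HU)
-/

set_option autoImplicit false

open scoped BigOperators ENNReal
open MeasureTheory

namespace Pool.Agent.H4R2.HU

open Pool.Agent.H4R2.LO (Zd dd adj AL bx FB cut Reg)
open Pool.Agent.H4R2.HD (Av Gn ind)
open Pool.Agent.H12R2.And (Q)

/-- truncation to `[-c, c]` -/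
noncomputable def cl (c t : ℝ) : ℝ := max (-c) (min c t)

/-- extension by zero of the truncated potential given on `Λ` -/
noncomputable def We {d : ℕ} (Λ : Finset (Zd d)) (c : ℝ) (V : Λ → ℝ) (x : Zd d) : ℝ :=
  if h : x ∈ Λ then cl c (V ⟨x, h⟩) else 0

/-- the fluctuation of the second order term -/
noncomputable def Uv {d : ℕ} (N : ℕ) (v : ℝ) (W : Zd d → ℝ) (x : Zd d) : ℝ :=
  W x * Gn N W x - v / (2 * d)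

/-- the supersolution -/
noncomputable def ph {d : ℕ} (N : ℕ) (v : ℝ) (W : Zd d → ℝ) (x : Zd d) : ℝ :=
  1 - Gn N W x + Gn N (Uv N v W) x

/-! ### UR, UM, UT: McDiarmid's inequality for products of a law on `ℝ` -/

/-- resampling one coordinate -/
def S_UR : Prop := ∀ {ι : Type} [Fintype ι] [DecidableEq ι] (μ : Measure ℝ)
  [IsProbabilityMeasure μ] (z : ι) (f : (ι → ℝ) → ℝ), Measurable f → (∃ M, ∀ ω, |f ω| ≤ M) →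
  ∫ ω, f ω ∂(Measure.pi fun _ : ι => μ) =
    ∫ ω, ∫ t, f (Function.update ω z t) ∂μ ∂(Measure.pi fun _ : ι => μ)

def S_UM : Prop := ∀ {ι : Type} [Fintype ι] [DecidableEq ι] (μ : Measure ℝ)
  [IsProbabilityMeasure μ] (f : (ι → ℝ) → ℝ) (c : ι → ℝ), Measurable f → (∃ M, ∀ ω, |f ω| ≤ M) →
  (∀ z ω s t, |f (Function.update ω z s) - f (Function.update ω z t)| ≤ c z) →
  ∫ ω, Real.exp (f ω - ∫ ω', f ω' ∂(Measure.pi fun _ : ι => μ)) ∂(Measure.pi fun _ : ι => μ) ≤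
    Real.exp ((∑ z, c z ^ 2) / 8)

def S_UT : Prop := ∀ {ι : Type} [Fintype ι] [DecidableEq ι] (μ : Measure ℝ)
  [IsProbabilityMeasure μ] (f : (ι → ℝ) → ℝ) (c : ι → ℝ) (S t : ℝ), Measurable f →
  (∃ M, ∀ ω, |f ω| ≤ M) →
  (∀ z ω s t, |f (Function.update ω z s) - f (Function.update ω z t)| ≤ c z) →
  ∑ z, c z ^ 2 ≤ S → 0 < S → 0 ≤ t →
  (Measure.pi fun _ : ι => μ).real {ω | ∫ ω', f ω' ∂(Measure.pi fun _ : ι => μ) + t < f ω} ≤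
    Real.exp (-(2 * t ^ 2 / S))

/-! ### UI: influences -/

def S_UI0 : Prop := ∀ {d : ℕ}, 1 ≤ d → ∀ (Λ : Finset (Zd d)) (c v : ℝ) (n N : ℕ) (x : Zd d),
  0 ≤ c → (Measurable fun V : Λ → ℝ => (Av^[n] (We Λ c V)) x) ∧
    (Measurable fun V : Λ → ℝ => (Av^[n] (Uv N v (We Λ c V))) x) ∧
    (∀ V : Λ → ℝ, ∀ y, |We Λ c V y| ≤ c)
def S_UI1 : Prop := ∀ {d : ℕ}, 1 ≤ d → ∀ (Λ : Finset (Zd d)) (c : ℝ) (n : ℕ) (x : Zd d) (z : Λ)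
  (V : Λ → ℝ) (s t : ℝ), 0 ≤ c →
  |(Av^[n] (We Λ c (Function.update V z s))) x - (Av^[n] (We Λ c (Function.update V z t))) x| ≤
    2 * c * (Av^[n] (ind z.1)) x
def S_UI2 : Prop := ∀ {d : ℕ}, 1 ≤ d → ∀ (Λ : Finset (Zd d)) (c v : ℝ) (N : ℕ) (x : Zd d) (z : Λ)
  (V : Λ → ℝ) (s t : ℝ), 0 ≤ c →
  |(Av^[N] (Uv N v (We Λ c (Function.update V z s)))) x -
      (Av^[N] (Uv N v (We Λ c (Function.update V z t)))) x| ≤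
    (N * c ^ 2 / d) * (Av^[N] (ind z.1)) x +
      (c ^ 2 / d) * ∑ n ∈ Finset.range N, (Av^[N + n] (ind z.1)) x

/-! ### UE: means -/

def S_UE1 : Prop := ∀ {d : ℕ}, 1 ≤ d → ∀ (Λ : Finset (Zd d)) (c : ℝ) (n : ℕ) (x : Zd d)
  (μ : Measure ℝ) [IsProbabilityMeasure μ], 0 ≤ c → ∫ t, cl c t ∂μ = 0 →
  ∫ V, (Av^[n] (We Λ c V)) x ∂(Measure.pi fun _ : Λ => μ) = 0
def S_UE2 : Prop := ∀ {d : ℕ}, 1 ≤ d → ∀ (Λ : Finset (Zd d)) (c v : ℝ) (N : ℕ) (x : Zd d)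
  (μ : Measure ℝ) [IsProbabilityMeasure μ], 0 ≤ c → 0 ≤ v → 1 ≤ N → ∫ t, cl c t ∂μ = 0 →
  ∫ t, cl c t ^ 2 ∂μ = v →
  ∫ V, (Av^[N] (Uv N v (We Λ c V))) x ∂(Measure.pi fun _ : Λ => μ) ≤
    (v / (2 * d)) * (N * ((N + 1).factorial : ℝ) * (Real.sqrt d)⁻¹)

/-! ### UP: probability -/

def S_UP : Prop := ∀ {d : ℕ}, 1 ≤ d → ∀ (Λ : Finset (Zd d)) (Ω : Finset Λ) (c v η : ℝ) (N : ℕ)
  (μ : Measure ℝ) [IsProbabilityMeasure μ], 0 < c → 0 ≤ v → 1 ≤ N → 0 < η → ∫ t, cl c t ∂μ = 0 →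
  ∫ t, cl c t ^ 2 ∂μ = v →
  (v / (2 * d)) * (N * ((N + 1).factorial : ℝ) * (Real.sqrt d)⁻¹) ≤ η / 2 →
  (Measure.pi fun _ : Λ => μ).real {V | ¬ ∀ x ∈ Ω, |(Av^[N] (We Λ c V)) x.1| ≤ η ∧
      (Av^[N] (Uv N v (We Λ c V))) x.1 ≤ η} ≤
    Ω.card * (2 * Real.exp (-(η ^ 2 * (Real.sqrt d) ^ N / (2 * c ^ 2 * ((N + 1).factorial : ℝ)))) +
      Real.exp (-(η ^ 2 * d ^ 2 * (Real.sqrt d) ^ N / (8 * N ^ 2 * c ^ 4 * ((2 * N).factorial : ℝ)))))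

/-! ### US, UF: supersolution and form bound -/

def S_US : Prop := ∀ {d : ℕ}, 1 ≤ d → ∀ (N : ℕ) (ε c v η : ℝ) (W : Zd d → ℝ), 1 ≤ N → 0 < ε →
  ε ≤ 1 → 0 < c → c ^ 2 ≤ 3 * v → v ≤ c ^ 2 → 0 ≤ η → η ≤ ε * v / (32 * d) →
  48 * N * (N + 1) * c / ε ≤ d → (∀ y, |W y| ≤ c) →
  (∀ y, 1 / 2 ≤ ph N v W y) ∧
  ∀ x, |(Av^[N] W) x| ≤ η → (Av^[N] (Uv N v W)) x ≤ η →
    ∑ i : Fin d, (ph N v W (x + Pi.single i 1) + ph N v W (x - Pi.single i 1)) ≤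
      (2 * d + W x + (1 + ε / 2) * v / (2 * d)) * ph N v W x

def S_UF : Prop := ∀ {d : ℕ} (Λ : Finset (Zd d)) (Ω : Finset Λ) (V : Λ → ℝ) (l : ℝ)
  (φ : Zd d → ℝ), (∀ x, 0 < φ x) →
  (∀ x ∈ Ω, ∑ i : Fin d, (φ (x.1 + Pi.single i 1) + φ (x.1 - Pi.single i 1)) ≤
    (2 * d + V x + l) * φ x.1) →
  FB (AL Λ) Ω 1 V (-l - 2 * d)

/-! ### UL: the uniform law -/

/-- the uniform law on `[-c, c]` -/
noncomputable def unif (c : ℝ) : Measure ℝ :=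
  ENNReal.ofReal (1 / (2 * c)) • volume.restrict (Set.Icc (-c) c)

def S_UL : Prop := ∀ c : ℝ, 0 < c → Reg (3 / (2 * c)) (unif c) ∧ ∫ t, cl c t ∂(unif c) = 0 ∧
  ∫ t, cl c t ^ 2 ∂(unif c) = c ^ 2 / 3 ∧ (∀ᵐ t ∂(unif c), cl c t = t)

/-! ### UA: asymptotics -/

/-- `c1` of the localization library with `b = d ^ 2` -/
noncomputable def cc (d : ℕ) : ℝ := 4 * Real.sqrt (8 * d) * (8 * d + 2 + ((d ^ 2 : ℕ) : ℝ))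

/-- the constant `C` of the localization library with `b = d ^ 2` and `B = 3 / (2 c)` -/
noncomputable def CC (d : ℕ) (c : ℝ) : ℝ :=
  2 * (8 * d + 2 + ((d ^ 2 : ℕ) : ℝ)) + 4 * (1 + 3 / (2 * c)) + 2 * cc d + 12

def S_UA1 : Prop := ∀ m : ℕ, ∀ᶠ d : ℕ in Filter.atTop, ∀ c : ℝ, ((d : ℝ) ^ m)⁻¹ ≤ c →
  4 * (cc d + 7) ^ (4 * d) * (1 + 3 / (2 * c)) ^ 2 ≤ 2 ^ (d ^ 2)

def S_UA2 : Prop := ∀ (m : ℕ) (ε : ℝ), 0 < ε → ∀ᶠ d : ℕ in Filter.atTop, ∀ c κ η : ℝ,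
  ((d : ℝ) ^ m)⁻¹ ≤ c → κ = min 1 (ε * c ^ 2 / (12 * d)) → η = ε * (c ^ 2 / 3) / (32 * d) →
  ∀ N : ℕ, N = 6 * m + 20 →
  (2 / κ) ^ (CC d c) * (((2 / κ) ^ (CC d c)) ^ d *
    (2 * Real.exp (-(η ^ 2 * (Real.sqrt d) ^ N / (2 * c ^ 2 * ((N + 1).factorial : ℝ)))) +
      Real.exp (-(η ^ 2 * d ^ 2 * (Real.sqrt d) ^ N / (8 * N ^ 2 * c ^ 4 * ((2 * N).factorial : ℝ)))))) ≤ 1

def S_UA3 : Prop := ∀ (N : ℕ) (ε : ℝ), 0 < ε → ∀ᶠ d : ℕ in Filter.atTop, ∀ c η : ℝ, 0 < c →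
  η = ε * (c ^ 2 / 3) / (32 * d) →
  ((c ^ 2 / 3) / (2 * d)) * (N * ((N + 1).factorial : ℝ) * (Real.sqrt d)⁻¹) ≤ η / 2

end Pool.Agent.H4R2.HU
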