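import Pool.Agent.H4R2.HU.UA

/-! The rate of decay is at least `d ^ (-(2 m + 7))`. -/

set_option autoImplicit false

open Filter

namespace Pool.Agent.H4R2.HU.Rate

theorem rate (m : ℕ) (ε : ℝ) (hε : 0 < ε) : ∀ᶠ d : ℕ in atTop, ∀ c κ : ℝ,
    ((d : ℝ) ^ m)⁻¹ ≤ c → κ = min 1 (ε * c ^ 2 / (12 * d)) →
    ((d : ℝ) ^ (2 * m + 7))⁻¹ ≤ Real.sqrt κ / (50 * CC d c * Real.log (2 / (κ * 1))) := by
  have hlog : ∀ᶠ d : ℕ in atTop, ((2 * m + 4 : ℕ) : ℝ) * Real.log d ≤ d / 50 := by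
    have h1 := Real.isLittleO_log_id_atTop.comp_tendsto tendsto_natCast_atTop_atTop
    have h2 := h1.def (show (0 : ℝ) < (50 * ((2 * m + 4 : ℕ) : ℝ))⁻¹ by positivity)
    filter_upwards [h2, eventually_ge_atTop 1] with d hd hd1
    have hd' : (1 : ℝ) ≤ d := by exact_mod_cast hd1
    simp only [Function.comp, id, Real.norm_eq_abs] at hd
    rw [abs_of_nonneg (Real.log_nonneg hd'), abs_of_nonneg (by linarith : (0 : ℝ) ≤ d)] at hd
    have hk : (0 : ℝ) < ((2 * m + 4 : ℕ) : ℝ) := by positivity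
    calc ((2 * m + 4 : ℕ) : ℝ) * Real.log d ≤
          ((2 * m + 4 : ℕ) : ℝ) * ((50 * ((2 * m + 4 : ℕ) : ℝ))⁻¹ * d) := by gcongr
      _ = d / 50 := by field_simp
  filter_upwards [hlog, eventually_ge_atTop 748,
    (tendsto_natCast_atTop_atTop (R := ℝ)).eventually_ge_atTop (12 / ε)] with d hlog hd hdε
  intro c κ hc hκ
  have hd' : (748 : ℝ) ≤ d := by exact_mod_cast hd
  have hd0 : (0 : ℝ) < d := by linarith
  have hd1 : (1 : ℝ) ≤ d := by linarith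
  obtain ⟨hc0, _⟩ := UA.inv_c (by omega : 1 ≤ d) hc
  have hCC := UA.CC_le hd hc
  have hCC0 : 0 < CC d c := by unfold CC cc; positivity
  have h12 : 12 ≤ d * ε := by rwa [div_le_iff₀ hε] at hdε
  -- lower bound for κ
  have hκl : ((d : ℝ) ^ (2 * m + 2))⁻¹ ≤ κ := by
    rw [hκ]
    refine le_min (inv_le_one_of_one_le₀ (one_le_pow₀ hd1)) ?_
    have hc2 : ((d : ℝ) ^ m)⁻¹ ^ 2 ≤ c ^ 2 := pow_le_pow_left₀ (by positivity) hc 2
    have h1 : ((d : ℝ) ^ (2 * m + 2))⁻¹ ≤ ε * ((d : ℝ) ^ m)⁻¹ ^ 2 / (12 * d) := by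
      rw [le_div_iff₀ (by positivity), inv_mul_le_iff₀ (by positivity)]
      have : (d : ℝ) ^ (2 * m + 2) * (ε * ((d : ℝ) ^ m)⁻¹ ^ 2) = ε * d * d := by
        rw [pow_add, pow_mul', inv_pow]
        field_simp
      rw [this]
      nlinarith
    refine h1.trans ?_
    gcongr
  have hκ0 : 0 < κ := lt_of_lt_of_le (by positivity) hκl
  have hκ1 : κ ≤ 1 := by rw [hκ]; exact min_le_left _ _
  have hs : ((d : ℝ) ^ (m + 1))⁻¹ ≤ Real.sqrt κ := by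
    apply Real.le_sqrt_of_sq_le
    rw [inv_pow, ← pow_mul]
    rwa [show (m + 1) * 2 = 2 * m + 2 by ring]
  have hlog2 : Real.log (2 / (κ * 1)) ≤ d / 50 := by
    refine le_trans ?_ hlog
    rw [← Real.log_pow]
    apply Real.log_le_log (by positivity)
    rw [mul_one, div_le_iff₀ hκ0]
    calc (2 : ℝ) ≤ d := by linarith
      _ ≤ (d : ℝ) ^ 2 := le_self_pow₀ hd1 (by norm_num)
      _ = (d : ℝ) ^ (2 * m + 4) * ((d : ℝ) ^ (2 * m + 2))⁻¹ := by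
          rw [show 2 * m + 4 = 2 + (2 * m + 2) by ring, pow_add]
          field_simp
      _ ≤ (d : ℝ) ^ (2 * m + 4) * κ := by gcongr
  have hlog0 : 0 < Real.log (2 / (κ * 1)) := by
    apply Real.log_pos
    rw [mul_one, lt_div_iff₀ hκ0]
    linarith
  rw [le_div_iff₀ (by positivity)]
  calc ((d : ℝ) ^ (2 * m + 7))⁻¹ * (50 * CC d c * Real.log (2 / (κ * 1)))
      ≤ ((d : ℝ) ^ (2 * m + 7))⁻¹ * (50 * (d : ℝ) ^ (m + 4) * (d / 50)) := by gcongr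
    _ = ((d : ℝ) ^ (m + 1))⁻¹ * ((d : ℝ)⁻¹) := by
        rw [show 2 * m + 7 = (m + 4) + (m + 1) + 2 by ring, pow_add, pow_add]
        field_simp
    _ ≤ ((d : ℝ) ^ (m + 1))⁻¹ * 1 := by
        gcongr
        exact inv_le_one_of_one_le₀ hd1
    _ ≤ Real.sqrt κ := by rw [mul_one]; exact hs

end Pool.Agent.H4R2.HU.Rate
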