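import Pool.Agent.H4R2.HU.Low
import Pool.Agent.H4R2.HU.Rate

/-! Assembly. -/

set_option autoImplicit false

open scoped BigOperators ENNReal
open MeasureTheory Filter

namespace Pool.Agent.H4R2.HU.Fin

open Pool.Agent.H4R2.LO (Zd dd adj AL bx FB cut Reg)
open Pool.Agent.H4R2.HD (Av Gn ind)
open Pool.Agent.H4R2.HU.Low (LocB)

theorem We_mem {d : ℕ} (Λ : Finset (Zd d)) (c : ℝ) (V : Λ → ℝ) (x : Λ) :
    We Λ c V x.1 = cl c (V x) := by
  unfold We
  rw [dif_pos x.2]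

theorem bad_null {ι : Type} [Fintype ι] (μ : Measure ℝ) [IsProbabilityMeasure μ] (c : ℝ)
    (h : ∀ᵐ t ∂μ, cl c t = t) : ∀ᵐ V ∂(Measure.pi fun _ : ι => μ), ∀ x, cl c (V x) = V x := by
  rw [ae_all_iff]
  intro x
  exact (measurePreserving_eval (fun _ : ι => μ) x).quasiMeasurePreserving.ae h

/-- the local form bound -/
theorem locB (hUP : S_UP) (hUS : S_US) (hUF : S_UF) (hUL : S_UL) (d : ℕ) (hd : 1 ≤ d) (N : ℕ)
    (hN : 1 ≤ N) (ε c η L0 : ℝ) (hε : 0 < ε) (hε1 : ε ≤ 1) (hc : 0 < c)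
    (hη : η = ε * (c ^ 2 / 3) / (32 * d)) (hcd : 48 * N * (N + 1) * c / ε ≤ d)
    (hm : ((c ^ 2 / 3) / (2 * d)) * (N * ((N + 1).factorial : ℝ) * (Real.sqrt d)⁻¹) ≤ η / 2)
    [IsProbabilityMeasure (unif c)] :
    LocB d L0 (unif c) 1 (-((1 + ε / 2) * (c ^ 2 / 3) / (2 * d)))
      (L0 ^ d * (2 * Real.exp (-(η ^ 2 * (Real.sqrt d) ^ N / (2 * c ^ 2 * ((N + 1).factorial : ℝ)))) +
      Real.exp (-(η ^ 2 * d ^ 2 * (Real.sqrt d) ^ N / (8 * N ^ 2 * c ^ 4 * ((2 * N).factorial : ℝ)))))) := by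
  intro Λ Ω x L hL hΩ
  obtain ⟨_, hU1, hU2, hU3⟩ := hUL c hc
  have hd' : (1 : ℝ) ≤ d := by exact_mod_cast hd
  have hv : (0 : ℝ) < c ^ 2 / 3 := by positivity
  have hη0 : 0 < η := by rw [hη]; positivity
  have hP := hUP hd Λ Ω c (c ^ 2 / 3) η N (unif c) hc hv.le hN hη0 hU1 hU2 hm
  set P : ℝ := 2 * Real.exp (-(η ^ 2 * (Real.sqrt d) ^ N / (2 * c ^ 2 * ((N + 1).factorial : ℝ)))) +
      Real.exp (-(η ^ 2 * d ^ 2 * (Real.sqrt d) ^ N / (8 * N ^ 2 * c ^ 4 * ((2 * N).factorial : ℝ))))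
    with hPdef
  have hP0 : 0 < P := by positivity
  set G : Set (Λ → ℝ) := {V | ¬ ∀ x ∈ Ω, |(Av^[N] (We Λ c V)) x.1| ≤ η ∧
      (Av^[N] (Uv N (c ^ 2 / 3) (We Λ c V))) x.1 ≤ η} with hG
  have hcard : (Ω.card : ℝ) ≤ L0 ^ d := by
    have h1 : Ω.card ≤ (2 * L + 1) ^ d := by
      refine le_trans (Finset.card_le_card ?_) (Pool.Agent.H4R2.LO.Dec.filt_card Λ x L)
      intro z hz
      exact Finset.mem_filter.2 ⟨Finset.mem_univ _, hΩ z hz⟩
    calc (Ω.card : ℝ) ≤ ((2 * L + 1 : ℕ) : ℝ) ^ d := by exact_mod_cast h1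
      _ ≤ L0 ^ d := by
          apply pow_le_pow_left₀ (by positivity)
          push_cast
          linarith
  have hae : ({V | ¬ FB (AL Λ) Ω 1 V (-((1 + ε / 2) * (c ^ 2 / 3) / (2 * d)) - 2 * d)} : Set (Λ → ℝ))
      ≤ᵐ[Measure.pi fun _ : Λ => unif c] G := by
    filter_upwards [bad_null (ι := Λ) (unif c) c hU3] with V hV hFB
    intro hgood
    apply hFB
    obtain ⟨hφ, hsup⟩ := hUS hd N ε c (c ^ 2 / 3) η (We Λ c V) hN hε hε1 hc (by linarith)
      (by have := sq_nonneg c; linarith) hη0.le (by rw [hη]) hcd (by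
        intro y
        unfold We
        split_ifs with h
        · unfold cl
          rw [abs_le]
          constructor
          · exact le_max_left _ _
          · exact max_le (by linarith) (min_le_left _ _)
        · rw [abs_zero]; exact hc.le)
    have key := hUF Λ Ω V ((1 + ε / 2) * (c ^ 2 / 3) / (2 * d)) (ph N (c ^ 2 / 3) (We Λ c V))
      (fun y => by linarith [hφ y]) (by
        intro z hz
        have h1 := hsup z.1 (hgood z hz).1 (hgood z hz).2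
        rw [We_mem, hV z] at h1
        exact h1)
    exact key
  calc (Measure.pi fun _ : Λ => unif c)
        {V | ¬ FB (AL Λ) Ω 1 V (-((1 + ε / 2) * (c ^ 2 / 3) / (2 * d)) - 2 * d)}
      ≤ (Measure.pi fun _ : Λ => unif c) G := measure_mono_ae hae
    _ = ENNReal.ofReal ((Measure.pi fun _ : Λ => unif c).real G) := by
        rw [ofReal_measureReal]
    _ ≤ ENNReal.ofReal (L0 ^ d * P) := by
        apply ENNReal.ofReal_le_ofReal
        refine hP.trans ?_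
        exact mul_le_mul_of_nonneg_right hcard hP0.le

/-- exponential decay of generalised eigenfunctions below the band -/
theorem below (hUP : S_UP) (hUS : S_US) (hUF : S_UF) (hUL : S_UL) (h1 : S_UA1) (h2 : S_UA2)
    (h3 : S_UA3) (m : ℕ) (ε : ℝ) (hε : 0 < ε) (hε1 : ε ≤ 1) : ∀ᶠ d : ℕ in atTop, ∀ c : ℝ,
    ((d : ℝ) ^ m)⁻¹ ≤ c → 48 * ((6 * m + 20 : ℕ) : ℝ) * (((6 * m + 20 : ℕ) : ℝ) + 1) * c / ε ≤ d →
    ∀ᵐ ω ∂(Measure.infinitePi fun _ : Zd d => unif c),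
      Pool.Agent.H4R2.LO.Main.Dec d (-1) ω (Set.Iic (-((1 + ε) * c ^ 2 / (6 * d)) - 2 * d))
        ((d : ℝ) ^ (2 * m + 7))⁻¹ := by
  filter_upwards [h1 m, h2 m ε hε, h3 (6 * m + 20) ε hε, Rate.rate m ε hε,
    eventually_ge_atTop 1] with d a1 a2 a3 a4 hd
  intro c hcm hcd
  have hd' : (1 : ℝ) ≤ d := by exact_mod_cast hd
  have hc : 0 < c := lt_of_lt_of_le (by positivity) hcm
  have hprob : IsProbabilityMeasure (unif c) := by
    constructor
    unfold unif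
    rw [Measure.smul_apply, Measure.restrict_apply MeasurableSet.univ, Set.univ_inter,
      Real.volume_Icc, smul_eq_mul, ← ENNReal.ofReal_mul (by positivity)]
    have : 1 / (2 * c) * (c - -c) = 1 := by
      field_simp
      ring
    rw [this, ENNReal.ofReal_one]
  set N : ℕ := 6 * m + 20 with hN
  set κ : ℝ := min 1 (ε * c ^ 2 / (12 * d)) with hκ
  set η : ℝ := ε * (c ^ 2 / 3) / (32 * d) with hη
  have hκ0 : 0 < κ := by
    rw [hκ]
    exact lt_min one_pos (by positivity)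
  have hκ1 : κ ≤ 1 := min_le_left _ _
  have hκ2 : κ ≤ ε * c ^ 2 / (12 * d) := min_le_right _ _
  have hC0 : 0 < CC d c := by unfold CC cc; positivity
  set L0 : ℝ := (2 / κ) ^ (CC d c) with hL0
  have hL00 : 0 < L0 := Real.rpow_pos_of_pos (by positivity) _
  have hloc := locB hUP hUS hUF hUL d hd N (by omega) ε c η L0 hε hε1 hc rfl hcd
    (a3 c η hc rfl)
  have hmain := Low.below d hd (3 / (2 * c)) (by positivity) (d ^ 2) (cc d)
    (by unfold cc; positivity) rfl (a1 c hcm) (CC d c) rfl (unif c) (hUL c hc).1 1 one_pos le_rfl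
    L0 _ _ (by positivity) hloc κ hκ0 hκ1 (by rw [mul_one]) (by
      rw [mul_one]
      exact a2 c κ η hcm rfl rfl N rfl)
  filter_upwards [hmain] with ω hω
  have e : (fun x => 1 * ω x) = ω := by funext x; ring
  rw [e] at hω
  refine Pool.Agent.H4R2.LO.Main.dec_mono _ _ _ _ _ _ hω ?_ (a4 c κ hcm rfl)
  intro E hE
  rw [Set.mem_Iic] at hE ⊢
  have e2 : (1 + ε) * c ^ 2 / (6 * d) =
      (1 + ε / 2) * (c ^ 2 / 3) / (2 * d) + ε * c ^ 2 / (12 * d) := by
    field_simp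
    ring
  linarith

end Pool.Agent.H4R2.HU.Fin
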