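import Pool.Agent.H4R2.HU.Defs

/-! Localization from a local form bound, with explicit constants. -/

set_option autoImplicit false

open scoped BigOperators ENNReal
open MeasureTheory

namespace Pool.Agent.H4R2.HU.Low

open Pool.Agent.H4R2.LO
open Pool.Agent.H4R2.LO.Dec

/-- with probability at least `1 - ε0`, the operator is bounded below by `E1` on subsets of boxes of
radius `L`, `2 L + 2 ≤ L0` -/
def LocB (d : ℕ) (L0 : ℝ) (μ : Measure ℝ) (lam E1 ε0 : ℝ) : Prop :=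
  ∀ (Λ : Finset (Zd d)) (Ω : Finset Λ) (x : Λ) (L : ℕ), 2 * (L : ℝ) + 2 ≤ L0 →
    (∀ z ∈ Ω, dd x.1 z.1 ≤ L) →
    (Measure.pi fun _ : Λ => μ) {V | ¬ FB (AL Λ) Ω lam V (E1 - 2 * d)} ≤ ENNReal.ofReal ε0

/-- exponential decay of fractional moments in all finite volumes -/
theorem dec (d : ℕ) (hd : 1 ≤ d) (B : ℝ) (hB : 0 < B) (b : ℕ) (c1 : ℝ) (hc0 : 0 ≤ c1)
    (hc : c1 = 4 * Real.sqrt (8 * d) * (8 * d + 2 + b))
    (hc2 : 4 * (c1 + 7) ^ (4 * d) * (1 + B) ^ 2 ≤ 2 ^ b)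
    (C : ℝ) (hC : C = 2 * (8 * d + 2 + b) + 4 * (1 + B) + 2 * c1 + 12)
    (μ : Measure ℝ) [IsProbabilityMeasure μ] (hμ : Reg B μ) (lam : ℝ) (hlam : 0 < lam)
    (hlam1 : lam ≤ 1) (L0 E1 ε0 : ℝ) (hε0 : 0 ≤ ε0) (hT : LocB d L0 μ lam E1 ε0)
    (κ : ℝ) (hκ : 0 < κ) (hκ1 : κ ≤ 1) (h1 : (2 / (κ * lam)) ^ C ≤ L0)
    (h2 : (2 / (κ * lam)) ^ C * ε0 ≤ 1)
    (Λ : Finset (Zd d)) (E : ℝ) (hE : E ≤ E1 - 2 * d - κ) (x y : Λ) :
      ∫⁻ V, ‖Gr (AL Λ) lam V E x y‖ₑ ^ (1 / 4 : ℝ) ∂(Measure.pi fun _ : Λ => μ) ≤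
        ENNReal.ofReal (C / lam *
          Real.exp (-(Real.sqrt κ * dd x.1 y.1 / (C * Real.log (2 / (κ * lam)))))) := by
  obtain ⟨a1, a2, a3⟩ := arith d hd B hB b c1 hc0 hc hc2 C hC lam κ ε0 L0 hlam hlam1 hκ hκ1 hε0
    h1 h2 _ rfl
  set L : ℕ := ⌈c1 * Real.log (2 / (κ * lam)) / Real.sqrt κ⌉₊ with hLdef
  have hDg : (1 : ℝ) ≤ 2 * d := by
    have : (1 : ℝ) ≤ d := by exact_mod_cast hd
    linarith
  have hadj : ∀ i j : Λ, AL Λ i j ≠ 0 → dd i.1 j.1 ≤ 1 := fun i j h => Em.dd_adj i.1 j.1 h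
  have hinit : ∀ (Ω : Finset Λ) (x u : Λ), x ∈ Ω → u ∈ Ω → (∀ z ∈ Ω, dd x.1 z.1 ≤ L) →
      dd x.1 u.1 = L →
      ∫⁻ V, ‖Gr (cut (AL Λ) Ω) lam V E x u‖ₑ ^ (1 / 4 : ℝ) ∂(Measure.pi fun _ : Λ => μ) ≤
        ENNReal.ofReal (2 / κ * Real.exp (-(Real.sqrt (κ / (4 * (2 * d))) * L / 4)) +
          Real.sqrt ε0 * (2 * Real.sqrt (Real.sqrt (B / lam)))) := by
    intro Ω x u hx hu hz hxu
    have hbad : (Measure.pi fun _ : Λ => μ) {V | ¬ FB (AL Λ) Ω lam V (E + κ)} ≤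
        ENNReal.ofReal ε0 := by
      refine le_trans (measure_mono ?_) (hT Λ Ω x L a1 hz)
      intro V hV hV'
      exact hV (FB_mono _ _ _ _ _ _ (by linarith) hV')
    have h3 := Ct.init μ B hμ (AL Λ) (Em.AL_symm Λ) (2 * d) hDg (Em.AL_row Λ) lam hlam E κ ε0
      hκ hκ1 hε0 (fun i j : Λ => dd i.1 j.1) (fun i => Em.dd_self i.1)
      (fun i j => Em.dd_comm i.1 j.1) (fun i j k => Em.dd_tri i.1 j.1 k.1) hadj Ω x u hx hu hbad
    simp only [hxu] at h3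
    exact h3
  have hfm := Fm.fm μ B hμ (AL Λ) (Em.AL_symm Λ) (fun i => Em.adj_self i.1)
    (fun i j => Em.adj_abs i.1 j.1) lam hlam E (fun i j : Λ => dd i.1 j.1)
    (fun i => Em.dd_self i.1) (fun i j => Em.dd_comm i.1 j.1)
    (fun i j k => Em.dd_tri i.1 j.1 k.1) hadj L ((2 * (L + 2) + 1) ^ d)
    (fun i => filt_card Λ i (L + 2)) _ hinit (dd x.1 y.1 / (L + 2)) Finset.univ x y
    (Finset.mem_univ _) (Finset.mem_univ _) (Nat.div_mul_le_self _ _)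
  rw [cut_univ] at hfm
  refine hfm.trans ?_
  have hθ : (((2 * (L + 2) + 1) ^ d : ℕ) : ℝ≥0∞) ^ 4 *
      ENNReal.ofReal (2 * Real.sqrt (Real.sqrt (B / lam))) *
      ENNReal.ofReal (2 / κ * Real.exp (-(Real.sqrt (κ / (4 * (2 * d))) * L / 4)) +
          Real.sqrt ε0 * (2 * Real.sqrt (Real.sqrt (B / lam)))) ≤ ENNReal.ofReal (1 / 2) := by
    rw [← ENNReal.ofReal_natCast, ← ENNReal.ofReal_pow (by positivity),
      ← ENNReal.ofReal_mul (by positivity), ← ENNReal.ofReal_mul (by positivity)]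
    refine ENNReal.ofReal_le_ofReal ?_
    refine le_trans (le_of_eq ?_) a2
    push_cast
    ring
  refine le_trans (mul_le_mul_left (pow_le_pow_left₀ zero_le hθ _) _) ?_
  rw [← ENNReal.ofReal_pow (by norm_num), ← ENNReal.ofReal_mul (by positivity)]
  exact ENNReal.ofReal_le_ofReal (a3 _)

/-- localization below the edge -/
theorem below (d : ℕ) (hd : 1 ≤ d) (B : ℝ) (hB : 0 < B) (b : ℕ) (c1 : ℝ) (hc0 : 0 ≤ c1)
    (hc : c1 = 4 * Real.sqrt (8 * d) * (8 * d + 2 + b))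
    (hc2 : 4 * (c1 + 7) ^ (4 * d) * (1 + B) ^ 2 ≤ 2 ^ b)
    (C : ℝ) (hC : C = 2 * (8 * d + 2 + b) + 4 * (1 + B) + 2 * c1 + 12)
    (μ : Measure ℝ) [IsProbabilityMeasure μ] (hμ : Reg B μ) (lam : ℝ) (hlam : 0 < lam)
    (hlam1 : lam ≤ 1) (L0 E1 ε0 : ℝ) (hε0 : 0 ≤ ε0) (hT : LocB d L0 μ lam E1 ε0)
    (κ : ℝ) (hκ : 0 < κ) (hκ1 : κ ≤ 1) (h1 : (2 / (κ * lam)) ^ C ≤ L0)
    (h2 : (2 / (κ * lam)) ^ C * ε0 ≤ 1) :
    ∀ᵐ ω ∂(Measure.infinitePi fun _ : Zd d => μ),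
      Main.Dec d (-1) (fun x => lam * ω x) (Set.Iic (E1 - 2 * d - κ))
        (Real.sqrt κ / (50 * C * Real.log (2 / (κ * lam)))) := by
  have hb : 1 ≤ 2 / (κ * lam) := by
    rw [le_div_iff₀ (by positivity)]
    nlinarith
  have hb2 : 2 ≤ 2 / (κ * lam) := by
    rw [le_div_iff₀ (by positivity)]
    have : κ * lam ≤ 1 := by nlinarith
    linarith
  have hX : 0 < Real.log (2 / (κ * lam)) := Real.log_pos (by linarith)
  have hC0 : 0 < C := by rw [hC]; positivity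
  set m0 : ℝ := Real.sqrt κ / (C * Real.log (2 / (κ * lam))) with hm0
  have hm0pos : 0 < m0 := by positivity
  have h4 := Gef.gef d hd μ B hμ lam hlam (E1 - 2 * d - κ) (C / lam) m0 hm0pos (by
    intro Λ E hE x y
    refine (dec d hd B hB b c1 hc0 hc hc2 C hC μ hμ lam hlam hlam1 L0 E1 ε0 hε0 hT κ hκ hκ1 h1 h2
      Λ E hE x y).trans (le_of_eq ?_)
    rw [hm0]
    congr 4
    ring)
  filter_upwards [h4] with ω hω E hE ψ hψ hg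
  obtain ⟨K, hK⟩ := hω E hE ψ hψ hg
  refine ⟨K, fun x => ?_⟩
  have h5 : Real.sqrt κ / (50 * C * Real.log (2 / (κ * lam))) = m0 / 50 := by
    rw [hm0]
    field_simp
  rw [h5]
  exact hK x

end Pool.Agent.H4R2.HU.Low
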