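import Pool.Agent.H4R2.HU.Fin

/-! Both edges. -/

set_option autoImplicit false

open scoped BigOperators ENNReal
open MeasureTheory Filter

namespace Pool.Agent.H4R2.HU.Two

open Pool.Agent.H4R2.LO (Zd)

theorem unif_prob (c : ℝ) (hc : 0 < c) : IsProbabilityMeasure (unif c) := by
  constructor
  unfold unif
  rw [Measure.smul_apply, Measure.restrict_apply MeasurableSet.univ, Set.univ_inter,
    Real.volume_Icc, smul_eq_mul, ← ENNReal.ofReal_mul (by positivity)]
  have : 1 / (2 * c) * (c - -c) = 1 := by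
    field_simp
    ring
  rw [this, ENNReal.ofReal_one]

theorem unif_neg (c : ℝ) : (unif c).map (fun t => -t) = unif c := by
  ext S hS
  rw [Measure.map_apply measurable_neg hS]
  unfold unif
  rw [Measure.smul_apply, Measure.smul_apply, Measure.restrict_apply (measurable_neg hS),
    Measure.restrict_apply hS, smul_eq_mul, smul_eq_mul]
  have h1 : (fun t : ℝ => -t) ⁻¹' S ∩ Set.Icc (-c) c = -(S ∩ Set.Icc (-c) c) := by
    ext t
    simp only [Set.mem_inter_iff, Set.mem_preimage, Set.mem_Icc, Set.mem_neg]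
    refine and_congr_right fun _ => ⟨fun h => ⟨by linarith [h.2], by linarith [h.1]⟩,
      fun h => ⟨by linarith [h.2], by linarith [h.1]⟩⟩
  rw [h1, Measure.measure_neg]

theorem law_map (d : ℕ) (μ ν : Measure ℝ) [IsProbabilityMeasure μ] (f : ℝ → ℝ)
    (hf : Measurable f) (h : μ.map f = ν) :
    (Measure.infinitePi fun _ : Fin d → ℤ => μ).map (fun ω x => f (ω x)) =
      Measure.infinitePi fun _ : Fin d → ℤ => ν := by
  have h1 := Measure.infinitePi_map_pi (μ := fun _ : Fin d → ℤ => μ)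
    (f := fun _ (s : ℝ) => f s) (fun _ => hf)
  rw [h] at h1
  exact h1

/-- both edges, from the lower edge -/
theorem both (d : ℕ) (c F r : ℝ) (hc : 0 < c)
    (h : ∀ᵐ ω ∂(Measure.infinitePi fun _ : Zd d => unif c),
      Pool.Agent.H4R2.LO.Main.Dec d (-1) ω (Set.Iic (-F - 2 * d)) r) :
    ∀ᵐ ω ∂(Measure.infinitePi fun _ : Zd d => unif c),
      Pool.Agent.H4R2.LO.Main.Dec d (-1) (fun x => ω x + 2 * d) {E | E ≤ -F ∨ 4 * d + F ≤ E} r := by
  have hP := unif_prob c hc
  have hB : ∀ᵐ ω ∂(Measure.infinitePi fun _ : Fin d → ℤ => unif c),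
      Pool.Agent.H4R2.LO.Main.Dec d (-1) (fun x => -ω x) (Set.Iic (-F - 2 * d)) r := by
    have h2 := law_map d (unif c) (unif c) (fun t => -t) (by fun_prop) (unif_neg c)
    have h3 := h
    rw [← h2] at h3
    have hm2 : Measurable (fun (ω : (Fin d → ℤ) → ℝ) x => -ω x) := by fun_prop
    exact ae_of_ae_map hm2.aemeasurable h3
  filter_upwards [h, hB] with ω hω hω'
  have e1 := Pool.Agent.H4R2.LO.Main.dec_shift (-1) (2 * d) _ _ r hω
  have e0 := Pool.Agent.H4R2.LO.Main.dec_stag _ _ _ r hω'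
  rw [neg_neg] at e0
  have e2 := Pool.Agent.H4R2.LO.Main.dec_shift (-1) (2 * d) _ _ r
    (Pool.Agent.H4R2.LO.Main.dec_neg 1 _ _ r e0)
  simp only [neg_neg] at e2
  refine Pool.Agent.H4R2.LO.Main.dec_mono _ _ _ _ _ _
    (Pool.Agent.H4R2.LO.Main.dec_union _ _ _ _ r e1 e2) ?_ le_rfl
  rintro E (hE | hE)
  · left
    simp only [Set.mem_setOf_eq, Set.mem_Iic]
    linarith
  · right
    simp only [Set.mem_setOf_eq, Set.mem_Iic]
    linarith

end Pool.Agent.H4R2.HU.Two
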