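import Pool.Agent.H4R2.HU.Defs

set_option autoImplicit false

namespace Pool.Agent.H4R2.HU.UA

open Filter

/-- `cc d ≤ 352 d ^ 3` -/
theorem cc_le {d : ℕ} (hd : 1 ≤ d) : cc d ≤ 352 * (d : ℝ) ^ 3 := by
  have hd' : (1 : ℝ) ≤ d := by exact_mod_cast hd
  have h1 : Real.sqrt (8 * d) ≤ 8 * d := by
    rw [Real.sqrt_le_left (by positivity)]
    nlinarith
  have h2 : (8 * (d : ℝ) + 2 + ((d ^ 2 : ℕ) : ℝ)) ≤ 11 * (d : ℝ) ^ 2 := by
    push_cast
    nlinarith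
  have h3 : (0 : ℝ) ≤ 8 * (d : ℝ) + 2 + ((d ^ 2 : ℕ) : ℝ) := by positivity
  calc cc d = 4 * (Real.sqrt (8 * d) * (8 * d + 2 + ((d ^ 2 : ℕ) : ℝ))) := by
        unfold cc; ring
    _ ≤ 4 * ((8 * d) * (11 * (d : ℝ) ^ 2)) := by
        apply mul_le_mul_of_nonneg_left _ (by norm_num)
        exact mul_le_mul h1 h2 h3 (by positivity)
    _ = 352 * (d : ℝ) ^ 3 := by ring

theorem cc_nonneg (d : ℕ) : 0 ≤ cc d := by
  unfold cc
  positivity

theorem inv_c {d m : ℕ} (hd : 1 ≤ d) {c : ℝ} (hc : ((d : ℝ) ^ m)⁻¹ ≤ c) :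
    0 < c ∧ c⁻¹ ≤ (d : ℝ) ^ m := by
  have hd' : (0 : ℝ) < d := by exact_mod_cast hd
  have hp : 0 < (d : ℝ) ^ m := by positivity
  have hc0 : 0 < c := lt_of_lt_of_le (by positivity) hc
  exact ⟨hc0, by rwa [inv_le_comm₀ hc0 hp]⟩

theorem S_UA1_proof : S_UA1 := by
  intro m
  have h1 := tendsto_pow_const_div_const_pow_of_one_lt (2 * m) (one_lt_two (α := ℝ))
  have h2 := tendsto_pow_const_div_const_pow_of_one_lt 16 (one_lt_two (α := ℝ))
  filter_upwards [eventually_ge_atTop 359,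
    h1.eventually (gt_mem_nhds (show (0:ℝ) < 1 / 36 by norm_num)),
    h2.eventually (gt_mem_nhds (show (0:ℝ) < 1 / 2 by norm_num))] with d hd e1 e2
  intro c hc
  have hd1 : 1 ≤ d := by omega
  have hd' : (359 : ℝ) ≤ d := by exact_mod_cast hd
  obtain ⟨hc0, hc1⟩ := inv_c hd1 hc
  have hp2 : (0:ℝ) < 2 ^ d := by positivity
  have hpm : (1 : ℝ) ≤ (d : ℝ) ^ m := one_le_pow₀ (by linarith)
  rw [div_lt_iff₀ hp2] at e1 e2
  have a1 : cc d + 7 ≤ (d : ℝ) ^ 4 := by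
    have := cc_le hd1
    have h3 : (1:ℝ) ≤ (d:ℝ) ^ 3 := one_le_pow₀ (by linarith)
    have h4 : 359 * (d:ℝ) ^ 3 ≤ (d : ℝ) ^ 4 := by
      rw [pow_succ (d : ℝ) 3, mul_comm]
      exact mul_le_mul_of_nonneg_left hd' (by positivity)
    linarith
  have a2 : 1 + 3 / (2 * c) ≤ 3 * (d : ℝ) ^ m := by
    have : 3 / (2 * c) = 3 / 2 * c⁻¹ := by field_simp
    rw [this]
    linarith
  have a3 : 0 ≤ 1 + 3 / (2 * c) := by positivity
  have a4 : 0 ≤ cc d + 7 := by have := cc_nonneg d; linarith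
  calc 4 * (cc d + 7) ^ (4 * d) * (1 + 3 / (2 * c)) ^ 2
      ≤ 4 * ((d : ℝ) ^ 4) ^ (4 * d) * (3 * (d : ℝ) ^ m) ^ 2 := by
        gcongr
    _ = 36 * (d : ℝ) ^ (2 * m) * ((d : ℝ) ^ 16) ^ d := by
        rw [← pow_mul, ← pow_mul]
        rw [show 4 * (4 * d) = 16 * d by ring, mul_pow, ← pow_mul, mul_comm m 2]
        ring
    _ ≤ 2 ^ d * ((1 / 2 : ℝ) * 2 ^ d) ^ d := by
        have b1 : 36 * (d : ℝ) ^ (2 * m) ≤ 2 ^ d := by linarith
        have b2 : ((d : ℝ) ^ 16) ^ d ≤ ((1 / 2 : ℝ) * 2 ^ d) ^ d :=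
          pow_le_pow_left₀ (by positivity) e2.le d
        exact mul_le_mul b1 b2 (by positivity) (by positivity)
    _ = 2 ^ (d ^ 2) := by
        rw [mul_pow, ← pow_mul, ← mul_assoc, ← mul_pow]
        norm_num
        rw [sq]

theorem S_UA3_proof : S_UA3 := by
  intro N ε hε
  have h1 : Tendsto (fun d : ℕ => Real.sqrt (d : ℝ)) atTop atTop :=
    Real.tendsto_sqrt_atTop.comp tendsto_natCast_atTop_atTop
  filter_upwards [h1.eventually_ge_atTop (32 * (N * ((N + 1).factorial : ℝ)) / ε),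
    eventually_ge_atTop 1] with d e1 hd
  intro c η hc hη
  have hd' : (0 : ℝ) < d := by exact_mod_cast hd
  have hs : 0 < Real.sqrt (d : ℝ) := Real.sqrt_pos.2 hd'
  rw [div_le_iff₀ hε] at e1
  rw [hη]
  have h2 : N * ((N + 1).factorial : ℝ) * (Real.sqrt d)⁻¹ ≤ ε / 32 := by
    rw [← div_eq_mul_inv, div_le_iff₀ hs]
    linarith
  calc ((c ^ 2 / 3) / (2 * d)) * (N * ((N + 1).factorial : ℝ) * (Real.sqrt d)⁻¹)
      ≤ ((c ^ 2 / 3) / (2 * d)) * (ε / 32) := by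
        apply mul_le_mul_of_nonneg_left h2 (by positivity)
    _ = ε * (c ^ 2 / 3) / (32 * d) / 2 := by
        field_simp
        try ring

theorem CC_le {d m : ℕ} (hd : 748 ≤ d) {c : ℝ} (hc : ((d : ℝ) ^ m)⁻¹ ≤ c) :
    CC d c ≤ (d : ℝ) ^ (m + 4) := by
  have hd1 : 1 ≤ d := by omega
  have hd' : (748 : ℝ) ≤ d := by exact_mod_cast hd
  obtain ⟨hc0, hc1⟩ := inv_c hd1 hc
  have hpm : (1 : ℝ) ≤ (d : ℝ) ^ m := one_le_pow₀ (by linarith)
  have a1 := cc_le hd1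
  have a2 : (8 * (d : ℝ) + 2 + ((d ^ 2 : ℕ) : ℝ)) ≤ 11 * (d : ℝ) ^ 2 := by
    push_cast
    nlinarith
  have a3 : 3 / (2 * c) ≤ 3 / 2 * (d : ℝ) ^ m := by
    have : 3 / (2 * c) = 3 / 2 * c⁻¹ := by field_simp
    rw [this]
    linarith
  have b0 : (d : ℝ) ^ (m + 3) = (d : ℝ) ^ m * (d : ℝ) ^ 3 := pow_add _ _ _
  have b1 : (d : ℝ) ^ m ≤ (d : ℝ) ^ (m + 3) := pow_le_pow_right₀ (by linarith) (by omega)
  have b2 : (d : ℝ) ^ 2 ≤ (d : ℝ) ^ (m + 3) := pow_le_pow_right₀ (by linarith) (by omega)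
  have b3 : (d : ℝ) ^ 3 ≤ (d : ℝ) ^ (m + 3) := pow_le_pow_right₀ (by linarith) (by omega)
  have b4 : (1 : ℝ) ≤ (d : ℝ) ^ (m + 3) := one_le_pow₀ (by linarith)
  have b5 : 748 * (d:ℝ) ^ (m + 3) ≤ (d : ℝ) ^ (m + 4) := by
    rw [pow_succ (d : ℝ) (m + 3), mul_comm]
    exact mul_le_mul_of_nonneg_left hd' (by positivity)
  unfold CC
  linarith

theorem CC_nonneg {d : ℕ} {c : ℝ} (hc : 0 < c) : 0 ≤ CC d c := by
  unfold CC
  have := cc_nonneg d
  positivity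

theorem S_UA2_proof : S_UA2 := by
  intro m ε hε
  -- constants
  set N : ℕ := 6 * m + 20 with hN
  set K1 : ℝ := ε ^ 2 / (18432 * ((N + 1).factorial : ℝ)) with hK1
  set K2 : ℝ := ε ^ 2 / (73728 * (N : ℝ) ^ 2 * ((2 * N).factorial : ℝ)) with hK2
  have hN0 : (0 : ℝ) < N := by rw [hN]; positivity
  have hK1p : 0 < K1 := by rw [hK1]; positivity
  have hK2p : 0 < K2 := by rw [hK2]; positivity
  have t1 : Tendsto (fun d : ℕ => (d : ℝ) ^ (2 * m + 1) * Real.exp (-(d : ℝ))) atTop (nhds 0) :=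
    (Real.tendsto_pow_mul_exp_neg_atTop_nhds_zero (2 * m + 1)).comp tendsto_natCast_atTop_atTop
  have t2 : Tendsto (fun d : ℕ => (d : ℝ)) atTop atTop := tendsto_natCast_atTop_atTop
  filter_upwards [eventually_ge_atTop 748,
    t1.eventually (gt_mem_nhds (show (0:ℝ) < ε / 48 by positivity)),
    t2.eventually_ge_atTop (4 / K1), t2.eventually_ge_atTop (4 / K2)] with d hd e1 e2 e3
  intro c κ η hc hκ hη N' hN'
  subst hN'
  have hd1 : 1 ≤ d := by omega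
  have hd' : (748 : ℝ) ≤ d := by exact_mod_cast hd
  have hd0 : (0 : ℝ) < d := by linarith
  obtain ⟨hc0, hc1⟩ := inv_c hd1 hc
  have hpm : (0 : ℝ) < (d : ℝ) ^ m := by positivity
  -- `2 / κ ≤ exp d`
  have hκ0 : 0 < κ := by
    rw [hκ]
    exact lt_min one_pos (by positivity)
  have hκ2 : 2 / κ ≤ Real.exp d := by
    have hE : 4 ≤ Real.exp d := by
      have := Real.add_one_le_exp (d : ℝ)
      linarith
    rcases min_choice (1:ℝ) (ε * c ^ 2 / (12 * d)) with h | h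
    · rw [hκ, h]; linarith
    · rw [hκ, h]
      have g1 : 2 / (ε * c ^ 2 / (12 * d)) = 24 / ε * ((d : ℝ) * c⁻¹ ^ 2) := by
        field_simp
        norm_num
      have g2 : (d : ℝ) * c⁻¹ ^ 2 ≤ (d : ℝ) ^ (2 * m + 1) := by
        calc (d : ℝ) * c⁻¹ ^ 2 ≤ (d : ℝ) * ((d : ℝ) ^ m) ^ 2 := by
              apply mul_le_mul_of_nonneg_left _ hd0.le
              exact pow_le_pow_left₀ (by positivity) hc1 2
          _ = (d : ℝ) ^ (2 * m + 1) := by rw [← pow_mul, pow_succ, mul_comm m 2]; ring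
      have g3 : (d : ℝ) ^ (2 * m + 1) ≤ ε / 48 * Real.exp d := by
        rw [Real.exp_neg, ← div_eq_mul_inv, div_lt_iff₀ (Real.exp_pos _)] at e1
        exact e1.le
      rw [g1]
      calc 24 / ε * ((d : ℝ) * c⁻¹ ^ 2) ≤ 24 / ε * (ε / 48 * Real.exp d) :=
            mul_le_mul_of_nonneg_left (g2.trans g3) (by positivity)
        _ = Real.exp d / 2 := by field_simp; norm_num
        _ ≤ Real.exp d := by have := Real.exp_pos (d : ℝ); linarith
  -- the first factor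
  have hCC0 : 0 ≤ CC d c := CC_nonneg hc0
  have hY : (2 / κ) ^ (CC d c) ≤ Real.exp ((d : ℝ) ^ (m + 5)) := by
    calc (2 / κ) ^ (CC d c) ≤ (Real.exp d) ^ (CC d c) :=
          Real.rpow_le_rpow (by positivity) hκ2 hCC0
      _ = Real.exp (d * CC d c) := (Real.exp_mul _ _).symm
      _ ≤ Real.exp ((d : ℝ) ^ (m + 5)) := by
          apply Real.exp_le_exp.2
          rw [pow_succ (d : ℝ) (m + 4), mul_comm]
          exact mul_le_mul_of_nonneg_right (CC_le hd hc) hd0.le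
  have hY0 : 0 ≤ (2 / κ) ^ (CC d c) := Real.rpow_nonneg (by positivity) _
  have hYY : (2 / κ) ^ (CC d c) * ((2 / κ) ^ (CC d c)) ^ d ≤
      Real.exp (2 * (d : ℝ) ^ (m + 6)) := by
    calc (2 / κ) ^ (CC d c) * ((2 / κ) ^ (CC d c)) ^ d = ((2 / κ) ^ (CC d c)) ^ (d + 1) := by
          rw [pow_succ]; ring
      _ ≤ (Real.exp ((d : ℝ) ^ (m + 5))) ^ (d + 1) := pow_le_pow_left₀ hY0 hY _
      _ = Real.exp (((d + 1 : ℕ) : ℝ) * (d : ℝ) ^ (m + 5)) := (Real.exp_nat_mul _ _).symm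
      _ ≤ Real.exp (2 * (d : ℝ) ^ (m + 6)) := by
          apply Real.exp_le_exp.2
          rw [pow_succ (d : ℝ) (m + 5)]
          push_cast
          have : (0:ℝ) ≤ (d : ℝ) ^ (m + 5) := by positivity
          nlinarith
  -- the exponents
  have hsq : (Real.sqrt d) ^ N = (d : ℝ) ^ (3 * m + 10) := by
    rw [hN, show 6 * m + 20 = 2 * (3 * m + 10) by ring, pow_mul, Real.sq_sqrt hd0.le]
  have hone : (1 : ℝ) ≤ (d : ℝ) ^ (m + 6) := one_le_pow₀ (by linarith)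
  have pow8 : (d : ℝ) ^ (m + 8) = (d : ℝ) ^ (m + 6) * ((d : ℝ) * d) := by
    rw [show m + 8 = m + 6 + 2 by ring, pow_add]; ring
  have key : ∀ K : ℝ, 0 < K → 4 / K ≤ d → 2 * (d : ℝ) ^ (m + 6) + 2 ≤ K * (d : ℝ) ^ (m + 8) := by
    intro K hK hdK
    rw [div_le_iff₀ hK] at hdK
    have h4 : 4 ≤ K * ((d : ℝ) * d) := by
      have : (1:ℝ) ≤ d := by linarith
      nlinarith
    rw [pow8]
    have h5 : (d : ℝ) ^ (m + 6) * 4 ≤ (d : ℝ) ^ (m + 6) * (K * ((d : ℝ) * d)) :=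
      mul_le_mul_of_nonneg_left h4 (by positivity)
    nlinarith
  have hc2 : ((d : ℝ) ^ (2 * m))⁻¹ ≤ c ^ 2 := by
    have h := pow_le_pow_left₀ (by positivity) hc 2
    rwa [inv_pow, ← pow_mul, mul_comm m 2] at h
  have E1 : 2 * (d : ℝ) ^ (m + 6) + 2 ≤
      η ^ 2 * (Real.sqrt d) ^ N / (2 * c ^ 2 * ((N + 1).factorial : ℝ)) := by
    refine (key K1 hK1p e2).trans ?_
    rw [hsq, hη]
    have g1 : (ε * (c ^ 2 / 3) / (32 * (d : ℝ))) ^ 2 * (d : ℝ) ^ (3 * m + 10) /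
        (2 * c ^ 2 * ((N + 1).factorial : ℝ)) = K1 * (c ^ 2 * (d : ℝ) ^ (3 * m + 8)) := by
      rw [hK1, show 3 * m + 10 = 3 * m + 8 + 2 by ring, pow_add (d : ℝ) (3 * m + 8) 2]
      field_simp
      norm_num
    rw [g1]
    apply mul_le_mul_of_nonneg_left _ hK1p.le
    have g2 : (d : ℝ) ^ (m + 8) = ((d : ℝ) ^ (2 * m))⁻¹ * (d : ℝ) ^ (3 * m + 8) := by
      rw [show 3 * m + 8 = 2 * m + (m + 8) by ring, pow_add (d : ℝ) (2 * m) (m + 8),
        inv_mul_cancel_left₀ (by positivity)]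
    rw [g2]
    exact mul_le_mul_of_nonneg_right hc2 (by positivity)
  have E2 : 2 * (d : ℝ) ^ (m + 6) + 2 ≤
      η ^ 2 * d ^ 2 * (Real.sqrt d) ^ N / (8 * N ^ 2 * c ^ 4 * ((2 * N).factorial : ℝ)) := by
    refine (key K2 hK2p e3).trans ?_
    rw [hsq, hη]
    have g1 : (ε * (c ^ 2 / 3) / (32 * (d : ℝ))) ^ 2 * (d : ℝ) ^ 2 * (d : ℝ) ^ (3 * m + 10) /
        (8 * (N : ℝ) ^ 2 * c ^ 4 * ((2 * N).factorial : ℝ)) = K2 * (d : ℝ) ^ (3 * m + 10) := by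
      rw [hK2]
      field_simp
      norm_num
    rw [g1]
    apply mul_le_mul_of_nonneg_left _ hK2p.le
    exact pow_le_pow_right₀ (by linarith) (by omega)
  -- conclusion
  have hexp2 : (3 : ℝ) ≤ Real.exp 2 := by
    have := Real.add_one_le_exp (2 : ℝ)
    linarith
  have F1 := Real.exp_le_exp.2 (neg_le_neg E1)
  have F2 := Real.exp_le_exp.2 (neg_le_neg E2)
  set X := Real.exp (-(2 * (d : ℝ) ^ (m + 6) + 2)) with hX
  have hX0 : 0 < X := Real.exp_pos _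
  rw [← mul_assoc]
  calc _ ≤ Real.exp (2 * (d : ℝ) ^ (m + 6)) * (2 * X + X) := by
        apply mul_le_mul hYY _ (by positivity) (by positivity)
        linarith
    _ = 3 * Real.exp (-2) := by
        rw [hX, neg_add, Real.exp_add]
        have : Real.exp (2 * (d : ℝ) ^ (m + 6)) * Real.exp (-(2 * (d : ℝ) ^ (m + 6))) = 1 := by
          rw [← Real.exp_add]; simp
        linear_combination (3 * Real.exp (-2)) * this
    _ ≤ 1 := by
        rw [Real.exp_neg, ← div_eq_mul_inv, div_le_one (Real.exp_pos _)]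
        exact hexp2

end Pool.Agent.H4R2.HU.UA
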