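import Pool.Agent.H4R2.HU.Defs
import Pool.Agent.H4R2.HD.ME

/-! UE: means (helper152) -/

set_option autoImplicit false

open scoped BigOperators ENNReal
open MeasureTheory

namespace Pool.Agent.H4R2.HU.UE

open Pool.Agent.H4R2.LO (Zd dd adj AL bx FB cut Reg)
open Pool.Agent.H4R2.HD (Av Gn ind)
open Pool.Agent.H12R2.And (ee)

lemma Av_app' {d : ℕ} (f : Zd d → ℝ) (x : Zd d) :
    Av f x = (∑ i : Fin d, (f (x + ee i) + f (x - ee i))) / (2 * d) := rfl

lemma Av_int' {T : Type} [MeasurableSpace T] {P : Measure T} {d : ℕ} (g : T → Zd d → ℝ)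
    (hg : ∀ y, Integrable (fun ω => g ω y) P)
    (n : ℕ) : ∀ x : Zd d, Integrable (fun ω => (Av^[n] (g ω)) x) P ∧
      ∫ ω, (Av^[n] (g ω)) x ∂P = (Av^[n] (fun y => ∫ ω, g ω y ∂P)) x := by
  induction n with
  | zero => intro x; exact ⟨hg x, rfl⟩
  | succ n ih =>
    intro x
    simp only [Function.iterate_succ_apply', Av_app']
    have h1 : ∀ i : Fin d, Integrable (fun ω => (Av^[n] (g ω)) (x + ee i) +
        (Av^[n] (g ω)) (x - ee i)) P :=
      fun i => (ih _).1.add (ih _).1
    constructor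
    · exact (integrable_finsetSum _ fun i _ => h1 i).div_const _
    · rw [integral_div, integral_finsetSum _ fun i _ => h1 i]
      congr 1
      refine Finset.sum_congr rfl fun i _ => ?_
      rw [integral_add (ih _).1 (ih _).1, (ih _).2, (ih _).2]

lemma Av_le' {d : ℕ} (hd : 1 ≤ d) (n : ℕ) (f : Zd d → ℝ) (M : ℝ) (hf : ∀ x, f x ≤ M) :
    ∀ x, (Av^[n] f) x ≤ M := by
  have hd0 : (0 : ℝ) < d := by exact_mod_cast hd
  induction n with
  | zero => exact hf
  | succ n ih =>
    intro x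
    rw [Function.iterate_succ_apply']
    set F := Av^[n] f with hF
    rw [Av_app', div_le_iff₀ (by positivity)]
    have : ∀ i : Fin d, F (x + ee i) + F (x - ee i) ≤ M + M := fun i =>
      add_le_add (ih _) (ih _)
    refine (Finset.sum_le_sum fun i _ => this i).trans (le_of_eq ?_)
    simp only [Finset.sum_const, Finset.card_univ, Fintype.card_fin, nsmul_eq_mul]
    ring

lemma meas_cl (c : ℝ) : Measurable (cl c) := by
  unfold cl
  exact measurable_const.max (measurable_const.min measurable_id)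

lemma abs_cl {c : ℝ} (hc : 0 ≤ c) (t : ℝ) : |cl c t| ≤ c := by
  unfold cl
  rw [abs_le]
  constructor
  · exact le_max_left _ _
  · apply max_le (by linarith)
    exact min_le_left _ _

lemma cl_zero {c : ℝ} (hc : 0 ≤ c) : cl c 0 = 0 := by
  unfold cl
  rw [min_eq_right hc, max_eq_right (by linarith)]

lemma meas_We {d : ℕ} (Λ : Finset (Zd d)) (c : ℝ) (y : Zd d) :
    Measurable (fun V : Λ → ℝ => We Λ c V y) := by
  unfold We
  by_cases h : y ∈ Λ
  · simp only [dif_pos h]
    exact (meas_cl c).comp (measurable_pi_apply _)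
  · simp only [dif_neg h]
    exact measurable_const

lemma abs_We {d : ℕ} (Λ : Finset (Zd d)) {c : ℝ} (hc : 0 ≤ c) (V : Λ → ℝ) (y : Zd d) :
    |We Λ c V y| ≤ c := by
  unfold We
  split_ifs
  · exact abs_cl hc _
  · rw [abs_zero]; exact hc

lemma meas_Av {T : Type} [MeasurableSpace T] {d : ℕ} (g : T → Zd d → ℝ)
    (hg : ∀ y, Measurable (fun ω => g ω y)) (n : ℕ) :
    ∀ x : Zd d, Measurable (fun ω => (Av^[n] (g ω)) x) := by
  induction n with
  | zero => exact hg
  | succ n ih =>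
    intro x
    simp only [Function.iterate_succ_apply', Av_app']
    refine Measurable.div_const ?_ _
    exact Finset.measurable_sum _ fun i _ => (ih _).add (ih _)

lemma int_bd {T : Type} [MeasurableSpace T] {P : Measure T} [IsProbabilityMeasure P] (f : T → ℝ)
    (hf : Measurable f) (C : ℝ) (hC : ∀ ω, |f ω| ≤ C) : Integrable f P :=
  Integrable.of_bound hf.aestronglyMeasurable C (Filter.Eventually.of_forall fun ω => by
    rw [Real.norm_eq_abs]; exact hC ω)

lemma upd_We {d : ℕ} (Λ : Finset (Zd d)) (c : ℝ) (V : Λ → ℝ) (z : Λ) (t s : ℝ) (x : Zd d) :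
    We Λ c (Function.update V z t) x - We Λ c (Function.update V z s) x =
      (cl c t - cl c s) * ind z.1 x := by
  classical
  unfold We ind
  by_cases hx : x = z.1
  · subst hx
    have hz : (⟨z.1, z.2⟩ : Λ) = z := rfl
    rw [dif_pos z.2, dif_pos z.2, hz, Function.update_self, Function.update_self, if_pos rfl,
      mul_one]
  · rw [if_neg hx, mul_zero]
    by_cases h : x ∈ Λ
    · have hne : (⟨x, h⟩ : Λ) ≠ z := fun h' => hx (congrArg Subtype.val h')
      rw [dif_pos h, dif_pos h, Function.update_of_ne hne, Function.update_of_ne hne, sub_self]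
    · rw [dif_neg h, dif_neg h, sub_self]

lemma We_self {d : ℕ} (Λ : Finset (Zd d)) (c : ℝ) (V : Λ → ℝ) (z : Λ) (t : ℝ) :
    We Λ c (Function.update V z t) z.1 = cl c t := by
  unfold We
  have hz : (⟨z.1, z.2⟩ : Λ) = z := rfl
  rw [dif_pos z.2, hz, Function.update_self]

lemma mean_We {d : ℕ} (Λ : Finset (Zd d)) {c : ℝ} (hc : 0 ≤ c) (μ : Measure ℝ)
    [IsProbabilityMeasure μ] (h0 : ∫ t, cl c t ∂μ = 0) (y : Zd d) :
    ∫ V, We Λ c V y ∂(Measure.pi fun _ : Λ => μ) = 0 := by
  by_cases h : y ∈ Λ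
  · have h1 := (measurePreserving_eval (fun _ : Λ => μ) ⟨y, h⟩).map_eq
    have h2 : ∫ V, We Λ c V y ∂(Measure.pi fun _ : Λ => μ) =
        ∫ V, cl c (Function.eval (⟨y, h⟩ : Λ) V) ∂(Measure.pi fun _ : Λ => μ) := by
      refine integral_congr_ae (Filter.Eventually.of_forall fun V => ?_)
      unfold We
      simp only [dif_pos h]
    rw [h2, ← integral_map (measurable_pi_apply _).aemeasurable
      (meas_cl c).aestronglyMeasurable, h1, h0]
  · have h2 : ∀ V : Λ → ℝ, We Λ c V y = 0 := by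
      intro V
      unfold We
      rw [dif_neg h]
    simp only [h2]
    simp

theorem UE1 : S_UE1 := by
  intro d hd Λ c n x μ _ hc h0
  obtain ⟨-, h⟩ := Av_int' (P := Measure.pi fun _ : Λ => μ) (fun V : Λ → ℝ => We Λ c V)
    (fun y => int_bd _ (meas_We Λ c y) c fun V => abs_We Λ hc V y) n x
  rw [h]
  simp only [mean_We Λ hc μ h0]
  clear h
  induction n generalizing x with
  | zero => rfl
  | succ n ih =>
    rw [Function.iterate_succ_apply', Av_app']
    simp [ih]

/-- covariances -/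
theorem cov (hUR : S_UR) {d : ℕ} (hd : 1 ≤ d) (Λ : Finset (Zd d)) {c v : ℝ} (hc : 0 ≤ c)
    (μ : Measure ℝ) [IsProbabilityMeasure μ] (h0 : ∫ t, cl c t ∂μ = 0)
    (hv : ∫ t, cl c t ^ 2 ∂μ = v) (n : ℕ) (y : Zd d) (hy : y ∈ Λ) :
    ∫ V, We Λ c V y * (Av^[n] (We Λ c V)) y ∂(Measure.pi fun _ : Λ => μ) =
      v * (Av^[n] (ind y)) y := by
  classical
  have hm := meas_Av (fun V : Λ → ℝ => We Λ c V) (fun y => meas_We Λ c y) n y
  rw [hUR μ (⟨y, hy⟩ : Λ) (fun V => We Λ c V y * (Av^[n] (We Λ c V)) y)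
    ((meas_We Λ c y).mul hm) ⟨c * c, fun V => by
      rw [abs_mul]
      exact mul_le_mul (abs_We Λ hc V y) (HD.ME.Av_bound hd n _ c (abs_We Λ hc V) y)
        (abs_nonneg _) hc⟩]
  have h1 : ∀ V : Λ → ℝ, ∫ t, We Λ c (Function.update V (⟨y, hy⟩ : Λ) t) y *
      (Av^[n] (We Λ c (Function.update V (⟨y, hy⟩ : Λ) t))) y ∂μ = v * (Av^[n] (ind y)) y := by
    intro V
    have h2 : ∀ t, We Λ c (Function.update V (⟨y, hy⟩ : Λ) t) y *
        (Av^[n] (We Λ c (Function.update V (⟨y, hy⟩ : Λ) t))) y =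
        cl c t * (Av^[n] (We Λ c (Function.update V (⟨y, hy⟩ : Λ) 0))) y +
          cl c t ^ 2 * (Av^[n] (ind y)) y := by
      intro t
      have h3 := HD.ME.Av_sub n (We Λ c (Function.update V (⟨y, hy⟩ : Λ) t))
        (We Λ c (Function.update V (⟨y, hy⟩ : Λ) 0)) (ind y) (cl c t)
        (fun x => by rw [upd_We, cl_zero hc, sub_zero]) y
      rw [We_self Λ c V ⟨y, hy⟩ t]
      have h4 : (Av^[n] (We Λ c (Function.update V (⟨y, hy⟩ : Λ) t))) y =
          (Av^[n] (We Λ c (Function.update V (⟨y, hy⟩ : Λ) 0))) y +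
            cl c t * (Av^[n] (ind y)) y := by linarith
      rw [h4]
      ring
    simp only [h2]
    have hI1 : Integrable (fun t => cl c t) μ := int_bd _ (meas_cl c) c (abs_cl hc)
    have hI2 : Integrable (fun t => cl c t ^ 2) μ := int_bd _ ((meas_cl c).pow_const 2) (c ^ 2)
      (fun t => by
        rw [abs_pow]
        exact pow_le_pow_left₀ (abs_nonneg _) (abs_cl hc t) 2)
    rw [integral_add (hI1.mul_const _) (hI2.mul_const _), integral_mul_const, integral_mul_const,
      h0, hv]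
    ring
  simp only [h1]
  simp

theorem UE2 (hUR : S_UR) : S_UE2 := by
  intro d hd Λ c v N x μ _ hc hv0 hN h0 hv
  have hd0 : (1 : ℝ) ≤ d := by exact_mod_cast hd
  have hsq : 1 ≤ Real.sqrt d := by rw [Real.one_le_sqrt]; exact hd0
  have hs : 0 < (Real.sqrt d)⁻¹ := by positivity
  have hs1 : (Real.sqrt d)⁻¹ ≤ 1 := inv_le_one_of_one_le₀ hsq
  have hmA : ∀ (n : ℕ) (y : Zd d), Measurable (fun V : Λ → ℝ => (Av^[n] (We Λ c V)) y) :=
    fun n y => meas_Av (fun V : Λ → ℝ => We Λ c V) (fun y => meas_We Λ c y) n y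
  have hbA : ∀ (n : ℕ) (y : Zd d) (V : Λ → ℝ), |(Av^[n] (We Λ c V)) y| ≤ c :=
    fun n y V => HD.ME.Av_bound hd n _ c (abs_We Λ hc V) y
  have hIc : ∀ (n : ℕ) (y : Zd d), Integrable (fun V : Λ → ℝ =>
      We Λ c V y * (Av^[n] (We Λ c V)) y) (Measure.pi fun _ : Λ => μ) := by
    intro n y
    refine int_bd _ ((meas_We Λ c y).mul (hmA n y)) (c * c) fun V => ?_
    rw [abs_mul]
    exact mul_le_mul (abs_We Λ hc V y) (hbA n y V) (abs_nonneg _) hc
  have e : ∀ (y : Zd d) (V : Λ → ℝ), Uv N v (We Λ c V) y =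
      (∑ n ∈ Finset.range N, We Λ c V y * (Av^[n] (We Λ c V)) y) / (2 * d) - v / (2 * d) := by
    intro y V
    unfold Uv Gn
    rw [← Finset.mul_sum, mul_div_assoc]
  have hI : ∀ y : Zd d, Integrable (fun V : Λ → ℝ => (∑ n ∈ Finset.range N,
      We Λ c V y * (Av^[n] (We Λ c V)) y) / (2 * (d : ℝ))) (Measure.pi fun _ : Λ => μ) :=
    fun y => (integrable_finsetSum _ fun n _ => hIc n y).div_const _
  have hIU : ∀ y : Zd d, Integrable (fun V : Λ → ℝ => Uv N v (We Λ c V) y)
      (Measure.pi fun _ : Λ => μ) := by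
    intro y
    simp only [e]
    exact (hI y).sub (integrable_const _)
  set R : ℝ := (v / (2 * d)) * (N * ((N + 1).factorial : ℝ) * (Real.sqrt d)⁻¹) with hR
  have hR0 : 0 ≤ R := by positivity
  have hB : ∀ y : Zd d, ∫ V, Uv N v (We Λ c V) y ∂(Measure.pi fun _ : Λ => μ) ≤ R := by
    intro y
    simp only [e]
    rw [integral_sub (hI y) (integrable_const _), integral_div,
      integral_finsetSum _ fun n _ => hIc n y]
    have hcst : ∫ _ : Λ → ℝ, v / (2 * (d : ℝ)) ∂(Measure.pi fun _ : Λ => μ) = v / (2 * d) := by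
      simp
    rw [hcst]
    by_cases hy : y ∈ Λ
    · simp only [cov hUR hd Λ hc μ h0 hv _ y hy]
      obtain ⟨M, rfl⟩ : ∃ M, N = M + 1 := ⟨N - 1, by omega⟩
      rw [Finset.sum_range_succ']
      have hi : (Av^[0] (ind y)) y = 1 := by simp [ind]
      rw [hi]
      have e' : (∑ n ∈ Finset.range M, v * (Av^[n + 1] (ind y)) y + v * 1) / (2 * (d : ℝ)) -
          v / (2 * d) = (v / (2 * d)) * ∑ n ∈ Finset.range M, (Av^[n + 1] (ind y)) y := by
        rw [← Finset.mul_sum]
        ring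
      rw [e', hR]
      refine mul_le_mul_of_nonneg_left ?_ (by positivity)
      have hterm : ∀ n ∈ Finset.range M, (Av^[n + 1] (ind y)) y ≤
          ((M + 1 + 1).factorial : ℝ) * (Real.sqrt d)⁻¹ := by
        intro n hn
        rw [Finset.mem_range] at hn
        refine (HD.KB.KB hd (n + 1) y y).2.trans ?_
        refine mul_le_mul ?_ ?_ (by positivity) (by positivity)
        · exact_mod_cast Nat.factorial_le (by omega)
        · rw [pow_succ]
          exact mul_le_of_le_one_left hs.le (pow_le_one₀ hs.le hs1)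
      refine (Finset.sum_le_sum hterm).trans ?_
      simp only [Finset.sum_const, Finset.card_range, nsmul_eq_mul]
      push_cast
      have : 0 ≤ ((M + 1 + 1).factorial : ℝ) * (Real.sqrt d)⁻¹ := by positivity
      nlinarith
    · have hz : ∀ (n : ℕ) (V : Λ → ℝ), We Λ c V y * (Av^[n] (We Λ c V)) y = 0 := by
        intro n V
        have : We Λ c V y = 0 := by
          unfold We
          rw [dif_neg hy]
        rw [this, zero_mul]
      simp only [hz]
      simp only [integral_zero, Finset.sum_const_zero, zero_div]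
      have : 0 ≤ v / (2 * (d : ℝ)) := by positivity
      linarith
  obtain ⟨-, h⟩ := Av_int' (P := Measure.pi fun _ : Λ => μ)
    (fun V : Λ → ℝ => Uv N v (We Λ c V)) hIU N x
  rw [h]
  exact Av_le' hd N _ _ hB x

end Pool.Agent.H4R2.HU.UE
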