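import Pool.Agent.H4R2.HU.Defs

/-! UF: form bound from a supersolution (helper152) -/

set_option autoImplicit false

open scoped BigOperators ENNReal
open MeasureTheory

namespace Pool.Agent.H4R2.HU.UF

open Pool.Agent.H4R2.LO (Zd dd adj AL bx FB cut Reg)
open Pool.Agent.H4R2.HD (Av Gn ind)

theorem adj_symm {d : ℕ} (x y : Zd d) : adj x y = adj y x := by
  classical
  unfold adj
  have h : (∃ i : Fin d, y = x + Pi.single i 1 ∨ y = x - Pi.single i 1) ↔
      ∃ i : Fin d, x = y + Pi.single i 1 ∨ x = y - Pi.single i 1 := by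
    constructor
    · rintro ⟨i, h | h⟩
      · exact ⟨i, Or.inr (by rw [h]; abel)⟩
      · exact ⟨i, Or.inl (by rw [h]; abel)⟩
    · rintro ⟨i, h | h⟩
      · exact ⟨i, Or.inr (by rw [h]; abel)⟩
      · exact ⟨i, Or.inl (by rw [h]; abel)⟩
  by_cases h1 : ∃ i : Fin d, y = x + Pi.single i 1 ∨ y = x - Pi.single i 1
  · rw [if_pos h1, if_pos (h.1 h1)]
  · rw [if_neg h1, if_neg fun h2 => h1 (h.2 h2)]

theorem sum_one {d : ℕ} (Λ : Finset (Zd d)) (y : Zd d) (r : ℝ) (hr : 0 ≤ r) :
    ∑ j : Λ, (if j.1 = y then r else 0) ≤ r := by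
  classical
  by_cases hy : y ∈ Λ
  · rw [Finset.sum_eq_single (⟨y, hy⟩ : Λ)]
    · rw [if_pos rfl]
    · intro j _ hj
      rw [if_neg]
      intro h
      exact hj (Subtype.ext h)
    · intro h
      exact absurd (Finset.mem_univ _) h
  · rw [Finset.sum_eq_zero]
    · exact hr
    · intro j _
      rw [if_neg]
      intro h
      apply hy
      rw [← h]
      exact j.2

theorem nbr_sum {d : ℕ} (Λ : Finset (Zd d)) (φ : Zd d → ℝ) (hφ : ∀ x, 0 < φ x) (x : Zd d) :
    ∑ j : Λ, (-adj x j.1) * φ j.1 ≤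
      ∑ i : Fin d, (φ (x + Pi.single i 1) + φ (x - Pi.single i 1)) := by
  classical
  have h1 : ∀ j : Λ, (-adj x j.1) * φ j.1 ≤ ∑ i : Fin d,
      ((if j.1 = x + Pi.single i 1 then φ (x + Pi.single i 1) else 0) +
        (if j.1 = x - Pi.single i 1 then φ (x - Pi.single i 1) else 0)) := by
    intro j
    have hnn : ∀ i : Fin d, 0 ≤
      ((if j.1 = x + Pi.single i 1 then φ (x + Pi.single i 1) else 0) +
        (if j.1 = x - Pi.single i 1 then φ (x - Pi.single i 1) else 0)) := by
      intro i
      apply add_nonneg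
      · split_ifs
        · exact (hφ _).le
        · exact le_refl _
      · split_ifs
        · exact (hφ _).le
        · exact le_refl _
    by_cases h : ∃ i : Fin d, j.1 = x + Pi.single i 1 ∨ j.1 = x - Pi.single i 1
    · have h2 : adj x j.1 = -1 := by
        unfold adj
        rw [if_pos h]
      rw [h2, neg_neg, one_mul]
      obtain ⟨i, hi⟩ := h
      refine le_trans ?_ (Finset.single_le_sum (f := fun i : Fin d =>
        ((if j.1 = x + Pi.single i 1 then φ (x + Pi.single i 1) else 0) +
        (if j.1 = x - Pi.single i 1 then φ (x - Pi.single i 1) else 0)))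
        (fun i _ => hnn i) (Finset.mem_univ i))
      rcases hi with hi | hi
      · beta_reduce
        rw [if_pos hi, ← hi]
        have : 0 ≤ (if j.1 = x - Pi.single i 1 then φ (x - Pi.single i 1) else 0) := by
          split_ifs
          · exact (hφ _).le
          · exact le_refl _
        linarith
      · beta_reduce
        rw [if_pos hi, ← hi]
        have : 0 ≤ (if j.1 = x + Pi.single i 1 then φ (x + Pi.single i 1) else 0) := by
          split_ifs
          · exact (hφ _).le
          · exact le_refl _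
        linarith
    · have h2 : adj x j.1 = 0 := by
        unfold adj
        rw [if_neg h]
      rw [h2, neg_zero, zero_mul]
      exact Finset.sum_nonneg fun i _ => hnn i
  refine (Finset.sum_le_sum fun j _ => h1 j).trans ?_
  rw [Finset.sum_comm]
  refine Finset.sum_le_sum fun i _ => ?_
  rw [Finset.sum_add_distrib]
  exact add_le_add (sum_one Λ _ _ (hφ _).le) (sum_one Λ _ _ (hφ _).le)

theorem UF : S_UF := by
  classical
  intro d Λ Ω V l φ hφ h f hf
  set u : Λ → ℝ := fun i => f i / φ i.1 with hu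
  have hfu : ∀ i, f i = φ i.1 * u i := by
    intro i
    simp only [hu]
    field_simp [(hφ i.1).ne']
  have hu0 : ∀ i, i ∉ Ω → u i = 0 := by
    intro i hi
    simp only [hu]
    rw [hf i hi, zero_div]
  set a : Λ → Λ → ℝ := fun i j => -(cut (AL Λ) Ω i j) with ha
  have ha0 : ∀ i j, 0 ≤ a i j := by
    intro i j
    simp only [ha]
    unfold cut AL adj
    split_ifs <;> norm_num
  have hasymm : ∀ i j, a i j = a j i := by
    intro i j
    simp only [ha]
    unfold cut AL
    rw [adj_symm i.1 j.1]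
    by_cases h1 : i ∈ Ω ∧ j ∈ Ω
    · rw [if_pos h1, if_pos h1.symm]
    · rw [if_neg h1, if_neg fun h2 => h1 h2.symm]
  have hale : ∀ i j, a i j ≤ -adj i.1 j.1 := by
    intro i j
    simp only [ha]
    unfold cut AL
    split_ifs with h1
    · exact le_refl _
    · rw [neg_zero]
      unfold adj
      split_ifs <;> norm_num
  have hrow : ∀ i ∈ Ω, ∑ j, a i j * φ j.1 ≤ (2 * d + V i + l) * φ i.1 := by
    intro i hi
    refine le_trans ?_ (h i hi)
    refine le_trans (Finset.sum_le_sum fun j _ => ?_) (nbr_sum Λ φ hφ i.1)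
    exact mul_le_mul_of_nonneg_right (hale i j) (hφ _).le
  -- the main inequality
  have hmain : ∑ i, ∑ j, a i j * (f i * f j) ≤ ∑ i, (2 * d + V i + l) * f i ^ 2 := by
    have e1 : ∀ i j, a i j * (f i * f j) ≤
        a i j * (φ i.1 * φ j.1 * u i ^ 2) / 2 + a i j * (φ i.1 * φ j.1 * u j ^ 2) / 2 := by
      intro i j
      rw [hfu i, hfu j]
      have h1 : 0 ≤ a i j * (φ i.1 * φ j.1) :=
        mul_nonneg (ha0 i j) (mul_pos (hφ _) (hφ _)).le
      have h2 : 0 ≤ a i j * (φ i.1 * φ j.1) * (u i - u j) ^ 2 := mul_nonneg h1 (sq_nonneg _)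
      nlinarith
    have e2 : ∑ i, ∑ j, a i j * (φ i.1 * φ j.1 * u j ^ 2) / 2 =
        ∑ i, ∑ j, a i j * (φ i.1 * φ j.1 * u i ^ 2) / 2 := by
      rw [Finset.sum_comm]
      refine Finset.sum_congr rfl fun i _ => Finset.sum_congr rfl fun j _ => ?_
      rw [hasymm j i]
      ring
    calc ∑ i, ∑ j, a i j * (f i * f j) ≤
        ∑ i, ∑ j, (a i j * (φ i.1 * φ j.1 * u i ^ 2) / 2 +
          a i j * (φ i.1 * φ j.1 * u j ^ 2) / 2) :=
          Finset.sum_le_sum fun i _ => Finset.sum_le_sum fun j _ => e1 i j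
      _ = ∑ i, ∑ j, a i j * (φ i.1 * φ j.1 * u i ^ 2) / 2 +
          ∑ i, ∑ j, a i j * (φ i.1 * φ j.1 * u j ^ 2) / 2 := by
          simp only [Finset.sum_add_distrib]
      _ = ∑ i, φ i.1 * u i ^ 2 * ∑ j, a i j * φ j.1 := by
          rw [e2, ← Finset.sum_add_distrib]
          refine Finset.sum_congr rfl fun i _ => ?_
          rw [← Finset.sum_add_distrib, Finset.mul_sum]
          refine Finset.sum_congr rfl fun j _ => ?_
          ring
      _ ≤ ∑ i, (2 * d + V i + l) * f i ^ 2 := by
          refine Finset.sum_le_sum fun i _ => ?_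
          by_cases hi : i ∈ Ω
          · have h1 := mul_le_mul_of_nonneg_left (hrow i hi)
              (mul_nonneg (hφ i.1).le (sq_nonneg (u i)))
            refine h1.trans (le_of_eq ?_)
            rw [hfu i]
            ring
          · rw [hu0 i hi, hf i hi]
            simp
  have hform : ∑ i, f i * ((cut (AL Λ) Ω).mulVec f i + 1 * V i * f i) =
      ∑ i, V i * f i ^ 2 - ∑ i, ∑ j, a i j * (f i * f j) := by
    rw [← Finset.sum_sub_distrib]
    refine Finset.sum_congr rfl fun i _ => ?_
    unfold Matrix.mulVec dotProduct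
    rw [mul_add, Finset.mul_sum]
    have e3 : ∑ j, a i j * (f i * f j) = - ∑ j, f i * (cut (AL Λ) Ω i j * f j) := by
      rw [← Finset.sum_neg_distrib]
      refine Finset.sum_congr rfl fun j _ => ?_
      simp only [ha]
      ring
    rw [e3]
    ring
  rw [hform]
  have e4 : (-l - 2 * d) * ∑ i, f i ^ 2 = ∑ i, V i * f i ^ 2 -
      ∑ i, (2 * d + V i + l) * f i ^ 2 := by
    rw [← Finset.sum_sub_distrib, Finset.mul_sum]
    refine Finset.sum_congr rfl fun i _ => ?_
    ring
  rw [e4]
  linarith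

end Pool.Agent.H4R2.HU.UF
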