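import Pool.Agent.H4R2.HU.Defs
import Pool.Agent.H4R2.HD.BA

/-! TASK UI (influences and measurability) of team HU (helper4); proof by helper439. -/

set_option autoImplicit false

open scoped BigOperators
open MeasureTheory

namespace Pool.Agent.H4R2.HU.UI

open Pool.Agent.H4R2.LO (Zd)
open Pool.Agent.H4R2.HD (Av Gn ind)
open Pool.Agent.H4R2.HD.BA (iter_add iter_smul iter_sum iter_mono iter_abs Gn_abs)
open Pool.Agent.H12R2.And (ee)

variable {d : ℕ}

lemma cl_abs (c t : ℝ) (hc : 0 ≤ c) : |cl c t| ≤ c := by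
  unfold cl
  rw [abs_le]
  exact ⟨le_max_left _ _, max_le (by linarith) (min_le_left _ _)⟩

lemma We_abs (Λ : Finset (Zd d)) (c : ℝ) (hc : 0 ≤ c) (V : Λ → ℝ) (y : Zd d) :
    |We Λ c V y| ≤ c := by
  unfold We
  split_ifs
  · exact cl_abs _ _ hc
  · simpa using hc

lemma We_meas (Λ : Finset (Zd d)) (c : ℝ) (y : Zd d) :
    Measurable fun V : Λ → ℝ => We Λ c V y := by
  unfold We
  by_cases h : y ∈ Λ
  · simp only [dif_pos h]
    unfold cl
    exact measurable_const.max (measurable_const.min (measurable_pi_apply _))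
  · simp only [dif_neg h]
    exact measurable_const

lemma iter_meas {α : Type} [MeasurableSpace α] (f : α → Zd d → ℝ)
    (hf : ∀ y, Measurable fun v => f v y) (n : ℕ) :
    ∀ x, Measurable fun v => (Av^[n] (f v)) x := by
  induction n with
  | zero => exact hf
  | succ n ih =>
    intro x
    simp only [Function.iterate_succ_apply']
    change Measurable fun v =>
      (∑ i : Fin d, ((Av^[n] (f v)) (x + ee i) + (Av^[n] (f v)) (x - ee i))) / (2 * d)
    exact (Finset.measurable_sum _ fun i _ => (ih _).add (ih _)).div_const _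

lemma Gn_meas {α : Type} [MeasurableSpace α] (f : α → Zd d → ℝ)
    (hf : ∀ y, Measurable fun v => f v y) (N : ℕ) (x : Zd d) :
    Measurable fun v => Gn N (f v) x := by
  unfold Gn
  exact (Finset.measurable_sum _ fun n _ => iter_meas f hf n x).div_const _

lemma Uv_meas {α : Type} [MeasurableSpace α] (f : α → Zd d → ℝ)
    (hf : ∀ y, Measurable fun v => f v y) (N : ℕ) (v : ℝ) (x : Zd d) :
    Measurable fun u => Uv N v (f u) x := by
  unfold Uv
  exact ((hf x).mul (Gn_meas f hf N x)).sub_const _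

theorem ui0 : S_UI0 := by
  intro d _ Λ c v n N x hc
  exact ⟨iter_meas _ (We_meas Λ c) n x,
    iter_meas _ (Uv_meas _ (We_meas Λ c) N v) n x, fun V y => We_abs Λ c hc V y⟩

/-- comparison of iterates -/
lemma iter_diff (n : ℕ) (f g h : Zd d → ℝ) (H : ∀ y, |f y - g y| ≤ h y) (x : Zd d) :
    |(Av^[n] f) x - (Av^[n] g) x| ≤ (Av^[n] h) x := by
  have h1 := iter_mono n f (fun y => g y + h y) (fun y => by
    have := (abs_le.1 (H y)).2; linarith) x
  have h2 := iter_mono n g (fun y => f y + h y) (fun y => by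
    have := (abs_le.1 (H y)).1; linarith) x
  rw [iter_add] at h1 h2
  rw [abs_le]
  constructor
  · have h2' : (Av^[n] g) x ≤ (Av^[n] f) x + (Av^[n] h) x := h2
    linarith
  · have h1' : (Av^[n] f) x ≤ (Av^[n] g) x + (Av^[n] h) x := h1
    linarith

lemma We_diff (Λ : Finset (Zd d)) (c : ℝ) (hc : 0 ≤ c) (z : Λ) (V : Λ → ℝ) (s t : ℝ)
    (y : Zd d) : |We Λ c (Function.update V z s) y - We Λ c (Function.update V z t) y| ≤
      2 * c * ind z.1 y := by
  classical
  by_cases hy : y = z.1
  · have h1 : ind z.1 y = 1 := by unfold ind; rw [if_pos hy]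
    rw [h1, mul_one]
    have h2 := We_abs Λ c hc (Function.update V z s) y
    have h3 := We_abs Λ c hc (Function.update V z t) y
    rw [abs_le] at *
    constructor <;> linarith [h2.1, h2.2, h3.1, h3.2]
  · have h1 : ind z.1 y = 0 := by unfold ind; rw [if_neg hy]
    rw [h1, mul_zero]
    have h2 : We Λ c (Function.update V z s) y = We Λ c (Function.update V z t) y := by
      unfold We
      by_cases h : y ∈ Λ
      · rw [dif_pos h, dif_pos h]
        have hne : (⟨y, h⟩ : Λ) ≠ z := fun h' => hy (congrArg Subtype.val h')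
        rw [Function.update_of_ne hne, Function.update_of_ne hne]
      · rw [dif_neg h, dif_neg h]
    rw [h2, sub_self, abs_zero]

theorem ui1 : S_UI1 := by
  intro d _ Λ c n x z V s t hc
  have h := iter_diff n _ _ _ (We_diff Λ c hc z V s t) x
  rwa [iter_smul] at h

lemma Gn_diff (N : ℕ) (f g h : Zd d → ℝ) (H : ∀ y, |f y - g y| ≤ h y) (x : Zd d) :
    |Gn N f x - Gn N g x| ≤ (∑ n ∈ Finset.range N, (Av^[n] h) x) / (2 * d) := by
  unfold Gn
  rw [← sub_div, abs_div, abs_of_nonneg (by positivity : (0 : ℝ) ≤ 2 * d),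
    ← Finset.sum_sub_distrib]
  apply div_le_div_of_nonneg_right _ (by positivity)
  refine (Finset.abs_sum_le_sum_abs _ _).trans ?_
  exact Finset.sum_le_sum fun n _ => iter_diff n f g h H x

theorem ui2 : S_UI2 := by
  intro d hd Λ c v N x z V s t hc
  have hd0 : (0 : ℝ) < d := by exact_mod_cast hd
  set W := We Λ c (Function.update V z s) with hW
  set W' := We Λ c (Function.update V z t) with hW'
  have hWa : ∀ y, |W y| ≤ c := We_abs Λ c hc _
  have hWa' : ∀ y, |W' y| ≤ c := We_abs Λ c hc _
  have hWd := We_diff Λ c hc z V s t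
  set h : Zd d → ℝ := fun y => (N * c ^ 2 / d) * ind z.1 y +
    (c ^ 2 / d) * ∑ n ∈ Finset.range N, (Av^[n] (ind z.1)) y with hh
  have hU : ∀ y, |Uv N v W y - Uv N v W' y| ≤ h y := by
    intro y
    have e1 : Uv N v W y - Uv N v W' y = (W y - W' y) * Gn N W y +
        W' y * (Gn N W y - Gn N W' y) := by
      unfold Uv; ring
    have e2 := Gn_abs hd N W c hWa y
    have e3 := Gn_diff N W W' _ hWd y
    have e4 : (∑ n ∈ Finset.range N, (Av^[n] (fun y => 2 * c * ind z.1 y)) y) / (2 * d) =
        (c / d) * ∑ n ∈ Finset.range N, (Av^[n] (ind z.1)) y := by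
      have : ∀ n, (Av^[n] (fun y => 2 * c * ind z.1 y)) y = 2 * c * (Av^[n] (ind z.1)) y := by
        intro n
        rw [iter_smul]
      simp only [this]
      rw [← Finset.mul_sum]
      field_simp
    rw [e4] at e3
    have hind : 0 ≤ ind z.1 y := by
      unfold ind
      split_ifs <;> norm_num
    rw [e1]
    refine (abs_add_le _ _).trans ?_
    rw [abs_mul, abs_mul, hh]
    refine add_le_add ?_ ?_
    · calc |W y - W' y| * |Gn N W y| ≤ (2 * c * ind z.1 y) * (N * c / (2 * d)) :=
            mul_le_mul (hWd y) e2 (abs_nonneg _) (by positivity)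
        _ = (N * c ^ 2 / d) * ind z.1 y := by field_simp
    · calc |W' y| * |Gn N W y - Gn N W' y| ≤ c * ((c / d) * ∑ n ∈ Finset.range N,
            (Av^[n] (ind z.1)) y) := mul_le_mul (hWa' y) e3 (abs_nonneg _) hc
        _ = (c ^ 2 / d) * ∑ n ∈ Finset.range N, (Av^[n] (ind z.1)) y := by ring
  have hfin := iter_diff N _ _ _ hU x
  refine hfin.trans (le_of_eq ?_)
  rw [hh, iter_add]
  simp only
  rw [iter_smul, iter_smul, iter_sum]
  simp only [Function.iterate_add_apply]

end Pool.Agent.H4R2.HU.UI
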