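import Pool.Agent.H4R2.HU.Defs

/-!
# The uniform law
-/

set_option autoImplicit false

open scoped BigOperators ENNReal
open MeasureTheory

namespace Pool.Agent.H4R2.HU.UL

open Pool.Agent.H4R2.LO (Zd dd adj AL bx FB cut Reg)
open Pool.Agent.H4R2.HD (Av Gn ind)

theorem cl_eq {c t : ℝ} (ht : t ∈ Set.Icc (-c) c) : cl c t = t := by
  unfold cl
  rw [min_eq_right ht.2, max_eq_right ht.1]

theorem reg (c : ℝ) (hc : 0 < c) : Reg (3 / (2 * c)) (unif c) := by
  have hD : (0 : ℝ) < 1 / (2 * c) := by positivity
  have hfin : IsFiniteMeasure (unif c) := by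
    refine ⟨?_⟩
    unfold unif
    rw [Measure.smul_apply, Measure.restrict_apply MeasurableSet.univ, Set.univ_inter,
      Real.volume_Icc, smul_eq_mul]
    exact ENNReal.mul_lt_top ENNReal.ofReal_lt_top ENNReal.ofReal_lt_top
  refine ⟨by positivity, ?_, ?_⟩
  · refine Measure.le_iff.2 fun s hs => ?_
    unfold unif
    rw [Measure.smul_apply, Measure.smul_apply, Measure.restrict_apply hs, smul_eq_mul,
      smul_eq_mul]
    refine mul_le_mul' (ENNReal.ofReal_le_ofReal ?_) (measure_mono Set.inter_subset_left)
    exact div_le_div_of_nonneg_right (by norm_num) (by positivity)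
  · intro S hS ε hε0 hε
    have hμ : unif c ≤ volume.withDensity
        ((Set.Icc (-c) c).indicator fun _ => ENNReal.ofReal (1 / (2 * c))) := by
      rw [withDensity_indicator measurableSet_Icc, withDensity_const]
      exact le_rfl
    have key := Pool.Agent.H4R2.LO.Lw.prod_le (unif c)
      ((Set.Icc (-c) c).indicator fun _ => ENNReal.ofReal (1 / (2 * c)))
      ((Set.Icc (-(2 * c)) (2 * c)).indicator fun _ =>
        ENNReal.ofReal (1 / (2 * c)) * ENNReal.ofReal (1 / (2 * c)))
      (measurable_const.indicator measurableSet_Icc)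
      (measurable_const.indicator measurableSet_Icc) hμ ?_ S hS (ENNReal.ofReal ε) hε
    · refine key.trans ?_
      rw [lintegral_indicator_const measurableSet_Icc, Real.volume_Icc,
        ← ENNReal.ofReal_mul hD.le, ← ENNReal.ofReal_mul (by positivity),
        ← ENNReal.ofReal_mul (mul_nonneg (by positivity) (by linarith))]
      refine ENNReal.ofReal_le_ofReal ?_
      refine mul_le_mul_of_nonneg_right ?_ hε0
      have e : 1 / (2 * c) * (1 / (2 * c)) * (2 * c - -(2 * c)) = 1 / c := by
        field_simp
        ring
      rw [e, div_le_div_iff₀ hc (by positivity)]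
      linarith
    · intro t r
      by_cases ht : t ∈ Set.Icc (-c) c
      · by_cases hr : r + t ∈ Set.Icc (-c) c
        · have hr2 : r ∈ Set.Icc (-(2 * c)) (2 * c) := by
            rw [Set.mem_Icc] at ht hr ⊢
            constructor <;> linarith [ht.1, ht.2, hr.1, hr.2]
          rw [Set.indicator_of_mem ht, Set.indicator_of_mem hr, Set.indicator_of_mem hr2]
        · rw [Set.indicator_of_notMem hr, mul_zero]
          exact bot_le
      · rw [Set.indicator_of_notMem ht, zero_mul]
        exact bot_le

theorem integral_unif (c : ℝ) (hc : 0 < c) (g : ℝ → ℝ) :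
    ∫ t, g (cl c t) ∂(unif c) = (1 / (2 * c)) * ∫ t in (-c)..c, g t := by
  unfold unif
  rw [integral_smul_measure, ENNReal.toReal_ofReal (by positivity), smul_eq_mul]
  congr 1
  rw [intervalIntegral.integral_of_le (by linarith), ← integral_Icc_eq_integral_Ioc]
  refine setIntegral_congr_fun measurableSet_Icc fun t ht => ?_
  simp only [cl_eq ht]

theorem UL : S_UL := by
  intro c hc
  refine ⟨reg c hc, ?_, ?_, ?_⟩
  · have h := integral_unif c hc (fun t => t)
    rw [h, integral_id]
    ring
  · have h := integral_unif c hc (fun t => t ^ 2)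
    rw [h, integral_pow]
    field_simp
    ring
  · unfold unif
    have h : ∀ᵐ t ∂(volume.restrict (Set.Icc (-c) c)), cl c t = t := by
      rw [ae_restrict_iff' measurableSet_Icc]
      exact Filter.Eventually.of_forall fun t ht => cl_eq ht
    exact Measure.ae_smul_measure h _

end Pool.Agent.H4R2.HU.UL
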