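import Pool.Agent.H4R2.HU.Defs

/-! # UM: the moment generating function in McDiarmid's inequality -/

set_option autoImplicit false

open MeasureTheory

namespace Pool.Agent.H4R2.HU.UM

/-- the statement `S_UR`, as a property -/
def RS : Prop := ∀ {ι : Type} [Fintype ι] [DecidableEq ι] (μ : Measure ℝ)
  [IsProbabilityMeasure μ] (z : ι) (f : (ι → ℝ) → ℝ), Measurable f → (∃ M, ∀ ω, |f ω| ≤ M) →
  ∫ ω, f ω ∂(Measure.pi fun _ : ι => μ) =
    ∫ ω, ∫ t, f (Function.update ω z t) ∂μ ∂(Measure.pi fun _ : ι => μ)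

/-- Hoeffding's lemma in the form used here. -/
theorem hoeff (μ : Measure ℝ) [IsProbabilityMeasure μ] (X : ℝ → ℝ) (hX : Measurable X)
    (M c : ℝ) (hM : ∀ t, |X t| ≤ M) (hc : ∀ s t, |X s - X t| ≤ c) :
    ∫ t, Real.exp (X t - ∫ u, X u ∂μ) ∂μ ≤ Real.exp (c ^ 2 / 8) := by
  have hbdd : BddBelow (Set.range X) := ⟨-M, by
    rintro _ ⟨t, rfl⟩
    exact (abs_le.1 (hM t)).1⟩
  set L : ℝ := ⨅ t, X t with hL
  have h1 : ∀ t, X t ∈ Set.Icc L (L + c) := by
    intro t
    refine ⟨ciInf_le hbdd t, ?_⟩
    have h2 : X t - c ≤ L := le_ciInf fun s => by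
      have := (abs_le.1 (hc t s)).2
      linarith
    linarith
  have h3 := ProbabilityTheory.hasSubgaussianMGF_of_mem_Icc (μ := μ) (X := X) hX.aemeasurable
    (Filter.Eventually.of_forall h1)
  have h4 := h3.mgf_le 1
  rw [ProbabilityTheory.mgf] at h4
  simp only [one_mul] at h4
  refine h4.trans (Real.exp_le_exp.2 ?_)
  have h5 : L + c - L = c := by ring
  rw [h5]
  have h6 : ((‖c‖₊ / 2) ^ 2 : NNReal) = ((‖c‖₊ / 2) ^ 2 : NNReal) := rfl
  push_cast
  rw [Real.norm_eq_abs]
  have h7 : (|c| / 2) ^ 2 * 1 ^ 2 / 2 = |c| ^ 2 / 8 := by ring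
  rw [h7, sq_abs]

section

variable {ι : Type} [Fintype ι] [DecidableEq ι]

/-- the average over one coordinate -/
noncomputable def avg (μ : Measure ℝ) (z : ι) (f : (ι → ℝ) → ℝ) (ω : ι → ℝ) : ℝ :=
  ∫ t, f (Function.update ω z t) ∂μ

theorem meas_upd (z : ι) {f : (ι → ℝ) → ℝ} (hf : Measurable f) (ω : ι → ℝ) :
    Measurable fun t => f (Function.update ω z t) :=
  hf.comp (measurable_update ω)

theorem avg_meas (μ : Measure ℝ) [IsProbabilityMeasure μ] (z : ι) {f : (ι → ℝ) → ℝ}
    (hf : Measurable f) : Measurable (avg μ z f) := by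
  have h : Measurable fun p : (ι → ℝ) × ℝ => f (Function.update p.1 z p.2) :=
    hf.comp measurable_update'
  exact (h.stronglyMeasurable.integral_prod_right' (ν := μ)).measurable

theorem upd_int (μ : Measure ℝ) [IsProbabilityMeasure μ] (z : ι) {f : (ι → ℝ) → ℝ}
    (hf : Measurable f) {M : ℝ} (hM : ∀ ω, |f ω| ≤ M) (ω : ι → ℝ) :
    Integrable (fun t => f (Function.update ω z t)) μ :=
  Integrable.of_bound (meas_upd z hf ω).aestronglyMeasurable M
    (Filter.Eventually.of_forall fun t => by rw [Real.norm_eq_abs]; exact hM _)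

theorem avg_bdd (μ : Measure ℝ) [IsProbabilityMeasure μ] (z : ι) {f : (ι → ℝ) → ℝ}
    {M : ℝ} (hM : ∀ ω, |f ω| ≤ M) (ω : ι → ℝ) : |avg μ z f ω| ≤ M := by
  have h := norm_integral_le_of_norm_le_const (μ := μ) (f := fun t => f (Function.update ω z t))
    (C := M) (Filter.Eventually.of_forall fun t => by rw [Real.norm_eq_abs]; exact hM _)
  rw [probReal_univ, mul_one, Real.norm_eq_abs] at h
  exact h

theorem avg_self (μ : Measure ℝ) (z : ι) (f : (ι → ℝ) → ℝ) (ω : ι → ℝ) (s : ℝ) :
    avg μ z f (Function.update ω z s) = avg μ z f ω := by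
  unfold avg
  simp only [Function.update_idem]

theorem avg_diff (μ : Measure ℝ) [IsProbabilityMeasure μ] (z : ι) {f : (ι → ℝ) → ℝ}
    {c : ι → ℝ} (hf : Measurable f) {M : ℝ} (hM : ∀ ω, |f ω| ≤ M)
    (hc : ∀ z ω s t, |f (Function.update ω z s) - f (Function.update ω z t)| ≤ c z)
    (w : ι) (ω : ι → ℝ) (s t : ℝ) :
    |avg μ z f (Function.update ω w s) - avg μ z f (Function.update ω w t)| ≤ c w := by
  by_cases hw : w = z
  · subst hw
    rw [avg_self, avg_self, sub_self, abs_zero]
    exact (abs_nonneg _).trans (hc w ω s t)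
  · unfold avg
    rw [← integral_sub (upd_int μ z hf hM _) (upd_int μ z hf hM _)]
    have h := norm_integral_le_of_norm_le_const (μ := μ)
      (f := fun u => f (Function.update (Function.update ω w s) z u) -
        f (Function.update (Function.update ω w t) z u))
      (C := c w) (Filter.Eventually.of_forall fun u => by
        rw [Real.norm_eq_abs, Function.update_comm hw, Function.update_comm hw]
        exact hc w _ s t)
    rw [probReal_univ, mul_one, Real.norm_eq_abs] at h
    exact h

theorem aux (hUR : RS) (μ : Measure ℝ) [IsProbabilityMeasure μ] (c : ι → ℝ) (F : Finset ι) :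
    ∀ f : (ι → ℝ) → ℝ, Measurable f → (∃ M, ∀ ω, |f ω| ≤ M) →
    (∀ z ω s t, |f (Function.update ω z s) - f (Function.update ω z t)| ≤ c z) →
    (∀ z, z ∉ F → ∀ ω s, f (Function.update ω z s) = f ω) →
    ∫ ω, Real.exp (f ω - ∫ ω', f ω' ∂(Measure.pi fun _ : ι => μ)) ∂(Measure.pi fun _ : ι => μ) ≤
      Real.exp ((∑ z ∈ F, c z ^ 2) / 8) := by
  induction F using Finset.induction_on with
  | empty =>
    intro f _ _ _ hF
    have hconst : ∀ (S : Finset ι) (ω ω' : ι → ℝ), f (S.piecewise ω' ω) = f ω := by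
      intro S ω ω'
      induction S using Finset.induction_on with
      | empty => rw [Finset.piecewise_empty]
      | insert j S _ ih =>
        rw [Finset.piecewise_insert, hF j (Finset.notMem_empty j), ih]
    have h0 : ∀ ω, f ω = f 0 := by
      intro ω
      have h := hconst Finset.univ 0 ω
      rwa [Finset.piecewise_univ] at h
    have h1 : ∫ ω', f ω' ∂(Measure.pi fun _ : ι => μ) = f 0 := by
      rw [integral_congr_ae (Filter.Eventually.of_forall h0)]
      simp
    rw [h1]
    simp only [h0, sub_self, Real.exp_zero, Finset.sum_empty, zero_div]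
    simp
  | insert z F hz ih =>
    intro f hf hb hc hF
    obtain ⟨M, hM⟩ := hb
    set P : Measure (ι → ℝ) := Measure.pi fun _ : ι => μ with hP
    set g := avg μ z f with hg
    have hgm : Measurable g := avg_meas μ z hf
    have hgb : ∀ ω, |g ω| ≤ M := avg_bdd μ z hM
    have hgi : ∫ ω, g ω ∂P = ∫ ω, f ω ∂P := (hUR μ z f hf ⟨M, hM⟩).symm
    have hgF : ∀ w, w ∉ F → ∀ ω s, g (Function.update ω w s) = g ω := by
      intro w hw ω s
      by_cases hwz : w = z
      · subst hwz
        exact avg_self μ w f ω s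
      · have hw' : w ∉ insert z F := by
          rw [Finset.mem_insert]; push Not; exact ⟨hwz, hw⟩
        simp only [hg, avg]
        refine integral_congr_ae (Filter.Eventually.of_forall fun u => ?_)
        simp only
        rw [Function.update_comm hwz, hF w hw']
    have hI := ih g hgm ⟨M, hgb⟩ (avg_diff μ z hf hM hc) hgF
    rw [hgi] at hI
    set a : ℝ := ∫ ω, f ω ∂P with ha
    have hexpm : Measurable fun ω => Real.exp (f ω - a) :=
      Real.measurable_exp.comp (hf.sub_const a)
    have hexpb : ∀ ω, |Real.exp (f ω - a)| ≤ Real.exp (M + |a|) := by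
      intro ω
      rw [abs_of_pos (Real.exp_pos _)]
      refine Real.exp_le_exp.2 ?_
      have h1 := (abs_le.1 (hM ω)).2
      have h2 := neg_abs_le a
      linarith
    rw [hUR μ z (fun ω => Real.exp (f ω - a)) hexpm ⟨_, hexpb⟩]
    have hstep : ∀ ω, ∫ t, Real.exp (f (Function.update ω z t) - a) ∂μ ≤
        Real.exp (g ω - a) * Real.exp (c z ^ 2 / 8) := by
      intro ω
      have h1 : ∀ t, Real.exp (f (Function.update ω z t) - a) =
          Real.exp (g ω - a) * Real.exp (f (Function.update ω z t) - g ω) := by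
        intro t
        rw [← Real.exp_add]
        congr 1
        ring
      simp only [h1]
      rw [integral_const_mul]
      refine mul_le_mul_of_nonneg_left ?_ (Real.exp_pos _).le
      exact hoeff μ (fun t => f (Function.update ω z t)) (meas_upd z hf ω) M (c z)
        (fun t => hM _) (fun s t => hc z ω s t)
    have hgexp : Integrable (fun ω => Real.exp (g ω - a) * Real.exp (c z ^ 2 / 8)) P := by
      refine Integrable.of_bound ((Real.measurable_exp.comp (hgm.sub_const a)).mul_const
        _).aestronglyMeasurable (Real.exp (M + |a|) * Real.exp (c z ^ 2 / 8))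
        (Filter.Eventually.of_forall fun ω => ?_)
      rw [Real.norm_eq_abs, abs_of_pos (mul_pos (Real.exp_pos _) (Real.exp_pos _))]
      refine mul_le_mul_of_nonneg_right (Real.exp_le_exp.2 ?_) (Real.exp_pos _).le
      have h1 := (abs_le.1 (hgb ω)).2
      have h2 := neg_abs_le a
      linarith
    calc ∫ ω, ∫ t, Real.exp (f (Function.update ω z t) - a) ∂μ ∂P
        ≤ ∫ ω, Real.exp (g ω - a) * Real.exp (c z ^ 2 / 8) ∂P :=
          integral_mono_of_nonneg
            (Filter.Eventually.of_forall fun ω => integral_nonneg fun t => (Real.exp_pos _).le)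
            hgexp (Filter.Eventually.of_forall hstep)
      _ = (∫ ω, Real.exp (g ω - a) ∂P) * Real.exp (c z ^ 2 / 8) := integral_mul_const _ _
      _ ≤ Real.exp ((∑ w ∈ F, c w ^ 2) / 8) * Real.exp (c z ^ 2 / 8) :=
          mul_le_mul_of_nonneg_right hI (Real.exp_pos _).le
      _ = Real.exp ((∑ w ∈ insert z F, c w ^ 2) / 8) := by
          rw [← Real.exp_add, Finset.sum_insert hz]
          congr 1
          ring

end

theorem main (hUR : RS) {ι : Type} [Fintype ι] [DecidableEq ι] (μ : Measure ℝ)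
    [IsProbabilityMeasure μ] (f : (ι → ℝ) → ℝ) (c : ι → ℝ) (hf : Measurable f)
    (hb : ∃ M, ∀ ω, |f ω| ≤ M)
    (hc : ∀ z ω s t, |f (Function.update ω z s) - f (Function.update ω z t)| ≤ c z) :
    ∫ ω, Real.exp (f ω - ∫ ω', f ω' ∂(Measure.pi fun _ : ι => μ)) ∂(Measure.pi fun _ : ι => μ) ≤
      Real.exp ((∑ z, c z ^ 2) / 8) :=
  aux hUR μ c Finset.univ f hf hb hc (fun z hz => absurd (Finset.mem_univ z) hz)

/-- UM, given UR -/
theorem um (hUR : S_UR) : S_UM := by
  intro ι _ _ μ _ f c hf hb hc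
  exact main (fun {_} _ _ μ _ z f hf hb => hUR μ z f hf hb) μ f c hf hb hc

end Pool.Agent.H4R2.HU.UM
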