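import Pool.Agent.H4R2.HU.Defs

/-!
# Probability of the bad event
-/

set_option autoImplicit false

open scoped BigOperators ENNReal
open MeasureTheory

namespace Pool.Agent.H4R2.HU.UP

open Pool.Agent.H4R2.LO (Zd dd adj AL bx FB cut Reg)
open Pool.Agent.H4R2.HD (Av Gn ind S_KB S_KS S_BA_iter_abs S_BA_Gn_abs)

theorem sq_sum_le {ι : Type} [Fintype ι] (c : ι → ℝ) (A B : ℝ) (h0 : ∀ z, 0 ≤ c z)
    (hA : ∀ z, c z ≤ A) (hB : ∑ z, c z ≤ B) (hA0 : 0 ≤ A) : ∑ z, c z ^ 2 ≤ A * B := by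
  calc ∑ z, c z ^ 2 ≤ ∑ z, A * c z := by
        refine Finset.sum_le_sum fun z _ => ?_
        rw [sq]
        exact mul_le_mul_of_nonneg_right (hA z) (h0 z)
    _ = A * ∑ z, c z := by rw [Finset.mul_sum]
    _ ≤ A * B := mul_le_mul_of_nonneg_left hB hA0

theorem sqrt_facts {d : ℕ} (hd : 1 ≤ d) : 0 < Real.sqrt d ∧ (Real.sqrt d)⁻¹ ≤ 1 := by
  have h1 : (1 : ℝ) ≤ Real.sqrt d := by
    rw [Real.one_le_sqrt]
    exact_mod_cast hd
  exact ⟨by linarith, inv_le_one_of_one_le₀ h1⟩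

theorem ks {d : ℕ} (hKS : S_KS) (hd : 1 ≤ d) (Λ : Finset (Zd d)) (n : ℕ) (x : Zd d) :
    ∑ z : Λ, (Av^[n] (ind z.1)) x ≤ 1 := by
  rw [Finset.sum_coe_sort Λ (fun z => (Av^[n] (ind z)) x)]
  exact hKS hd n Λ x

/-- first order term, one sign -/
theorem p1 (hUT : S_UT) (hUI0 : S_UI0) (hUI1 : S_UI1) (hKB : S_KB) (hKS : S_KS)
    (habs : S_BA_iter_abs) {d : ℕ} (hd : 1 ≤ d) (Λ : Finset (Zd d)) (c η : ℝ) (N : ℕ)
    (μ : Measure ℝ) [IsProbabilityMeasure μ] (hc : 0 < c) (hη : 0 < η) (x : Zd d) (σ : ℝ)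
    (hσ : |σ| = 1)
    (hmean : ∫ V, (Av^[N] (We Λ c V)) x ∂(Measure.pi fun _ : Λ => μ) = 0) :
    (Measure.pi fun _ : Λ => μ).real {V | η < σ * (Av^[N] (We Λ c V)) x} ≤
      Real.exp (-(η ^ 2 * (Real.sqrt d) ^ N / (2 * c ^ 2 * ((N + 1).factorial : ℝ)))) := by
  obtain ⟨hs0, hs1⟩ := sqrt_facts hd
  obtain ⟨m1, -, hb⟩ := hUI0 hd Λ c 0 N N x hc.le
  have hf : (0 : ℝ) < ((N + 1).factorial : ℝ) := by exact_mod_cast Nat.factorial_pos _
  have hcz : ∀ z : Λ, 0 ≤ 2 * c * (Av^[N] (ind z.1)) x := fun z =>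
    mul_nonneg (by positivity) (hKB hd N z.1 x).1
  have hS : ∑ z : Λ, (2 * c * (Av^[N] (ind z.1)) x) ^ 2
      ≤ (2 * c * (((N + 1).factorial : ℝ) * ((Real.sqrt d)⁻¹) ^ N)) * (2 * c) := by
    apply sq_sum_le _ _ _ hcz
    · intro z
      exact mul_le_mul_of_nonneg_left (hKB hd N z.1 x).2 (by positivity)
    · rw [← Finset.mul_sum]
      have := mul_le_mul_of_nonneg_left (ks hKS hd Λ N x) (show 0 ≤ 2 * c by positivity)
      linarith
    · positivity
  have h := hUT μ (fun V : Λ → ℝ => σ * (Av^[N] (We Λ c V)) x)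
    (fun z => 2 * c * (Av^[N] (ind z.1)) x)
    ((2 * c * (((N + 1).factorial : ℝ) * ((Real.sqrt d)⁻¹) ^ N)) * (2 * c)) η (m1.const_mul σ)
    ⟨c, fun V => by
      rw [abs_mul, hσ, one_mul]
      exact habs hd N _ c (hb V) x⟩
    (by
      intro z V s t
      have e : σ * (Av^[N] (We Λ c (Function.update V z s))) x
          - σ * (Av^[N] (We Λ c (Function.update V z t))) x
          = σ * ((Av^[N] (We Λ c (Function.update V z s))) x
          - (Av^[N] (We Λ c (Function.update V z t))) x) := by ring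
      show |σ * (Av^[N] (We Λ c (Function.update V z s))) x
          - σ * (Av^[N] (We Λ c (Function.update V z t))) x| ≤ _
      rw [e, abs_mul, hσ, one_mul]
      exact hUI1 hd Λ c N x z V s t hc.le) hS (by positivity) hη.le
  rw [integral_const_mul, hmean, mul_zero, zero_add] at h
  refine h.trans (le_of_eq ?_)
  congr 2
  rw [inv_pow]
  field_simp

/-- second order term -/
theorem p2 (hUT : S_UT) (hUI0 : S_UI0) (hUI2 : S_UI2) (hKB : S_KB) (hKS : S_KS)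
    (habs : S_BA_iter_abs) (hGn : S_BA_Gn_abs) {d : ℕ} (hd : 1 ≤ d) (Λ : Finset (Zd d))
    (c v η : ℝ) (N : ℕ) (hN : 1 ≤ N)
    (μ : Measure ℝ) [IsProbabilityMeasure μ] (hc : 0 < c) (hη : 0 < η) (x : Zd d)
    (hmean : ∫ V, (Av^[N] (Uv N v (We Λ c V))) x ∂(Measure.pi fun _ : Λ => μ) ≤ η / 2) :
    (Measure.pi fun _ : Λ => μ).real {V | η < (Av^[N] (Uv N v (We Λ c V))) x} ≤
      Real.exp (-(η ^ 2 * d ^ 2 * (Real.sqrt d) ^ N
        / (8 * N ^ 2 * c ^ 4 * ((2 * N).factorial : ℝ)))) := by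
  obtain ⟨hs0, hs1⟩ := sqrt_facts hd
  have hd0 : (0 : ℝ) < d := by exact_mod_cast hd
  have hN0 : (0 : ℝ) < N := by exact_mod_cast hN
  obtain ⟨-, m2, hb⟩ := hUI0 hd Λ c v N N x hc.le
  have hf : (0 : ℝ) < ((2 * N).factorial : ℝ) := by exact_mod_cast Nat.factorial_pos _
  set s := (Real.sqrt d)⁻¹ with hs
  have hsn : 0 ≤ s := by positivity
  have hK : ∀ n, N ≤ n → n + 1 ≤ 2 * N → ∀ z : Λ,
      (Av^[n] (ind z.1)) x ≤ ((2 * N).factorial : ℝ) * s ^ N := by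
    intro n h1 h2 z
    refine (hKB hd n z.1 x).2.trans ?_
    refine mul_le_mul ?_ (pow_le_pow_of_le_one hsn hs1 h1) (by positivity) hf.le
    exact_mod_cast Nat.factorial_le h2
  have hcz : ∀ z : Λ, 0 ≤ (N * c ^ 2 / d) * (Av^[N] (ind z.1)) x +
      (c ^ 2 / d) * ∑ n ∈ Finset.range N, (Av^[N + n] (ind z.1)) x := by
    intro z
    have h1 := (hKB hd N z.1 x).1
    have h2 : 0 ≤ ∑ n ∈ Finset.range N, (Av^[N + n] (ind z.1)) x :=
      Finset.sum_nonneg fun n _ => (hKB hd (N + n) z.1 x).1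
    positivity
  have hS : ∑ z : Λ, ((N * c ^ 2 / d) * (Av^[N] (ind z.1)) x +
      (c ^ 2 / d) * ∑ n ∈ Finset.range N, (Av^[N + n] (ind z.1)) x) ^ 2
      ≤ (2 * N * c ^ 2 / d * (((2 * N).factorial : ℝ) * s ^ N)) * (2 * N * c ^ 2 / d) := by
    apply sq_sum_le _ _ _ hcz
    · intro z
      have h1 := hK N le_rfl (by omega) z
      have h2 : ∑ n ∈ Finset.range N, (Av^[N + n] (ind z.1)) x
          ≤ N * (((2 * N).factorial : ℝ) * s ^ N) := by
        calc ∑ n ∈ Finset.range N, (Av^[N + n] (ind z.1)) x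
            ≤ ∑ n ∈ Finset.range N, (((2 * N).factorial : ℝ) * s ^ N) := by
              refine Finset.sum_le_sum fun n hn => ?_
              rw [Finset.mem_range] at hn
              exact hK (N + n) (by omega) (by omega) z
          _ = _ := by rw [Finset.sum_const, Finset.card_range, nsmul_eq_mul]
      have h3 := mul_le_mul_of_nonneg_left h1 (show 0 ≤ N * c ^ 2 / (d : ℝ) by positivity)
      have h4 := mul_le_mul_of_nonneg_left h2 (show 0 ≤ c ^ 2 / (d : ℝ) by positivity)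
      calc _ ≤ _ := add_le_add h3 h4
        _ = _ := by ring
    · rw [Finset.sum_add_distrib, ← Finset.mul_sum, ← Finset.mul_sum, Finset.sum_comm]
      have h1 := mul_le_mul_of_nonneg_left (ks hKS hd Λ N x)
        (show 0 ≤ N * c ^ 2 / (d : ℝ) by positivity)
      have h2 : ∑ n ∈ Finset.range N, ∑ z : Λ, (Av^[N + n] (ind z.1)) x ≤ N := by
        calc ∑ n ∈ Finset.range N, ∑ z : Λ, (Av^[N + n] (ind z.1)) x
            ≤ ∑ n ∈ Finset.range N, (1 : ℝ) :=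
              Finset.sum_le_sum fun n _ => ks hKS hd Λ (N + n) x
          _ = N := by rw [Finset.sum_const, Finset.card_range, nsmul_eq_mul, mul_one]
      have h3 := mul_le_mul_of_nonneg_left h2 (show 0 ≤ c ^ 2 / (d : ℝ) by positivity)
      calc _ ≤ _ := add_le_add h1 h3
        _ = _ := by ring
    · positivity
  have hb2 : ∀ V : Λ → ℝ, ∀ y, |Uv N v (We Λ c V) y| ≤ c * (N * c / (2 * d)) + |v / (2 * d)| := by
    intro V y
    unfold Uv
    refine (abs_sub _ _).trans ?_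
    rw [abs_mul]
    have h1 := hb V y
    have h2 := hGn hd N _ c (hb V) y
    have h3 : |We Λ c V y| * |Gn N (We Λ c V) y| ≤ c * (N * c / (2 * d)) :=
      mul_le_mul h1 h2 (abs_nonneg _) hc.le
    linarith
  have h := hUT μ (fun V : Λ → ℝ => (Av^[N] (Uv N v (We Λ c V))) x)
    (fun z => (N * c ^ 2 / d) * (Av^[N] (ind z.1)) x +
      (c ^ 2 / d) * ∑ n ∈ Finset.range N, (Av^[N + n] (ind z.1)) x)
    ((2 * N * c ^ 2 / d * (((2 * N).factorial : ℝ) * s ^ N)) * (2 * N * c ^ 2 / d)) (η / 2) m2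
    ⟨_, fun V => habs hd N _ _ (hb2 V) x⟩
    (fun z V s t => hUI2 hd Λ c v N x z V s t hc.le) hS (by positivity) (by positivity)
  have hsub : {V : Λ → ℝ | η < (Av^[N] (Uv N v (We Λ c V))) x} ⊆
      {V | ∫ ω', (Av^[N] (Uv N v (We Λ c ω'))) x ∂(Measure.pi fun _ : Λ => μ) + η / 2
        < (Av^[N] (Uv N v (We Λ c V))) x} := by
    intro V hV
    simp only [Set.mem_ofPred_eq] at hV ⊢
    linarith
  refine (measureReal_mono hsub).trans (h.trans (le_of_eq ?_))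
  congr 2
  rw [hs, inv_pow]
  field_simp
  ring

theorem UP (hUT : S_UT) (hUI0 : S_UI0) (hUI1 : S_UI1) (hUI2 : S_UI2) (hUE1 : S_UE1)
    (hUE2 : S_UE2) (hKB : S_KB) (hKS : S_KS) (habs : S_BA_iter_abs) (hGn : S_BA_Gn_abs) :
    S_UP := by
  intro d hd Λ Ω c v η N μ _ hc hv hN hη hm hvv hη2
  have hP : IsProbabilityMeasure (Measure.pi fun _ : Λ => μ) := inferInstance
  have hsub : {V : Λ → ℝ | ¬ ∀ x ∈ Ω, |(Av^[N] (We Λ c V)) x.1| ≤ η ∧
      (Av^[N] (Uv N v (We Λ c V))) x.1 ≤ η} ⊆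
      ⋃ x ∈ Ω, (({V | η < (1 : ℝ) * (Av^[N] (We Λ c V)) x.1}
        ∪ {V | η < (-1 : ℝ) * (Av^[N] (We Λ c V)) x.1})
        ∪ {V | η < (Av^[N] (Uv N v (We Λ c V))) x.1}) := by
    intro V hV
    rw [Set.mem_ofPred_eq] at hV
    push Not at hV
    obtain ⟨x, hx, h⟩ := hV
    simp only [Set.mem_iUnion]
    refine ⟨x, hx, ?_⟩
    by_cases h1 : |(Av^[N] (We Λ c V)) x.1| ≤ η
    · exact Or.inr (h h1)
    · rcases lt_abs.1 (not_le.1 h1) with h2 | h2
      · refine Or.inl (Or.inl ?_)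
        rw [Set.mem_ofPred_eq]
        linarith
      · refine Or.inl (Or.inr ?_)
        rw [Set.mem_ofPred_eq]
        linarith
  refine (measureReal_mono hsub (measure_ne_top _ _)).trans ?_
  refine (measureReal_biUnion_finset_le Ω _).trans ?_
  rw [← nsmul_eq_mul]
  refine Finset.sum_le_card_nsmul _ _ _ fun x _ => ?_
  have hmean1 := hUE1 hd Λ c N x.1 μ hc.le hm
  have hmean2 := (hUE2 hd Λ c v N x.1 μ hc.le hv hN hm hvv).trans hη2
  have h1 := p1 hUT hUI0 hUI1 hKB hKS habs hd Λ c η N μ hc hη x.1 1 (by simp) hmean1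
  have h2 := p1 hUT hUI0 hUI1 hKB hKS habs hd Λ c η N μ hc hη x.1 (-1) (by simp) hmean1
  have h3 := p2 hUT hUI0 hUI2 hKB hKS habs hGn hd Λ c v η N hN μ hc hη x.1 hmean2
  refine (measureReal_union_le _ _).trans ?_
  refine (add_le_add (measureReal_union_le _ _) le_rfl).trans ?_
  linarith

end Pool.Agent.H4R2.HU.UP
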