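import Pool.Agent.H4R2.HU.Defs

/-!
# Resampling identity for product measures
-/

set_option autoImplicit false

open scoped BigOperators ENNReal
open MeasureTheory

namespace Pool.Agent.H4R2.HU.UR

theorem mp {ι : Type} [Fintype ι] [DecidableEq ι] (μ : Measure ℝ) [IsProbabilityMeasure μ]
    (z : ι) : MeasurePreserving (fun p : (ι → ℝ) × ℝ => Function.update p.1 z p.2)
      ((Measure.pi fun _ : ι => μ).prod μ) (Measure.pi fun _ : ι => μ) := by
  have hm : Measurable (fun p : (ι → ℝ) × ℝ => Function.update p.1 z p.2) := measurable_update'
  refine ⟨hm, ?_⟩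
  symm
  refine Measure.pi_eq fun s hs => ?_
  rw [Measure.map_apply hm (MeasurableSet.univ_pi hs)]
  have hpre : (fun p : (ι → ℝ) × ℝ => Function.update p.1 z p.2) ⁻¹' (Set.univ.pi s) =
      (Set.univ.pi (Function.update s z Set.univ)) ×ˢ (s z) := by
    ext p
    simp only [Set.mem_preimage, Set.mem_pi, Set.mem_univ, true_implies, Set.mem_prod]
    constructor
    · intro h
      refine ⟨fun i => ?_, ?_⟩
      · by_cases hi : i = z
        · subst hi
          rw [Function.update_self]
          trivial
        · have := h i
          rw [Function.update_of_ne hi] at this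
          rw [Function.update_of_ne hi]
          exact this
      · have := h z
        rwa [Function.update_self] at this
    · rintro ⟨h1, h2⟩ i
      by_cases hi : i = z
      · subst hi
        rwa [Function.update_self]
      · have := h1 i
        rw [Function.update_of_ne hi] at this
        rw [Function.update_of_ne hi]
        exact this
  rw [hpre, Measure.prod_prod, Measure.pi_pi]
  have h1 : ∏ i, μ (Function.update s z Set.univ i) = ∏ i ∈ Finset.univ.erase z, μ (s i) := by
    rw [← Finset.mul_prod_erase Finset.univ _ (Finset.mem_univ z), Function.update_self,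
      measure_univ, one_mul]
    refine Finset.prod_congr rfl fun i hi => ?_
    rw [Function.update_of_ne (Finset.ne_of_mem_erase hi)]
  rw [h1, mul_comm, Finset.mul_prod_erase Finset.univ (fun i => μ (s i)) (Finset.mem_univ z)]

theorem UR : S_UR := by
  intro ι _ _ μ _ z f hf hM
  obtain ⟨M, hM⟩ := hM
  have h := mp μ z
  have hint : Integrable (fun p : (ι → ℝ) × ℝ => f (Function.update p.1 z p.2))
      ((Measure.pi fun _ : ι => μ).prod μ) := by
    refine Integrable.of_bound ((hf.comp h.measurable).aestronglyMeasurable) M ?_
    exact Filter.Eventually.of_forall fun p => by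
      rw [Real.norm_eq_abs]; exact hM _
  calc ∫ ω, f ω ∂(Measure.pi fun _ : ι => μ)
      = ∫ ω, f ω ∂(Measure.map (fun p : (ι → ℝ) × ℝ => Function.update p.1 z p.2)
          ((Measure.pi fun _ : ι => μ).prod μ)) := by rw [h.map_eq]
    _ = ∫ p, f (Function.update p.1 z p.2) ∂((Measure.pi fun _ : ι => μ).prod μ) :=
        integral_map h.measurable.aemeasurable hf.aestronglyMeasurable
    _ = ∫ ω, ∫ t, f (Function.update ω z t) ∂μ ∂(Measure.pi fun _ : ι => μ) :=
        integral_prod _ hint

end Pool.Agent.H4R2.HU.UR
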