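import Pool.Agent.H4R2.HU.Defs
import Pool.Agent.H4R2.HD.BA

/-!
US: the supersolution for the uniform disorder.
-/

set_option autoImplicit false

open scoped BigOperators

namespace Pool.Agent.H4R2.HU.US

open Pool.Agent.H4R2.LO (Zd dd adj AL bx FB cut Reg)
open Pool.Agent.H4R2.HD (Av Gn ind)
open Pool.Agent.H12R2.And (ee)

variable {d : ℕ}

lemma ph_id (hd : 1 ≤ d) (N : ℕ) (v : ℝ) (W : Zd d → ℝ) (x : Zd d) :
    ∑ i : Fin d, (ph N v W (x + Pi.single i 1) + ph N v W (x - Pi.single i 1)) =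
      (2 * d + W x) * ph N v W x
        + (v / (2 * d) - (Av^[N] W) x + (Av^[N] (Uv N v W)) x - W x * Gn N (Uv N v W) x) := by
  have h1 := HD.BA.param hd N W x
  have h2 := HD.BA.param hd N (Uv N v W) x
  have e : ∑ i : Fin d, (ph N v W (x + Pi.single i 1) + ph N v W (x - Pi.single i 1)) =
      2 * d - ∑ i : Fin d, (Gn N W (x + ee i) + Gn N W (x - ee i))
        + ∑ i : Fin d, (Gn N (Uv N v W) (x + ee i) + Gn N (Uv N v W) (x - ee i)) := by
    have hc : (2 * d : ℝ) = ∑ _i : Fin d, (2 : ℝ) := by simp; ring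
    rw [hc, ← Finset.sum_sub_distrib, ← Finset.sum_add_distrib]
    refine Finset.sum_congr rfl fun i _ => ?_
    have he : (Pi.single i 1 : Zd d) = ee i := rfl
    rw [he]
    unfold ph; ring
  rw [e]
  have hU : Uv N v W x = W x * Gn N W x - v / (2 * d) := rfl
  rw [hU] at h2
  unfold ph
  linear_combination h1 - h2

theorem US : S_US := by
  intro d hd N ε c v η W hN hε hε1 hc hcv hvc hη hη' hd' hW
  have hdR : (1 : ℝ) ≤ d := by exact_mod_cast hd
  have hd0 : (0 : ℝ) < d := by linarith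
  have hN' : (1 : ℝ) ≤ N := by exact_mod_cast hN
  have hv : 0 < v := by nlinarith
  -- the ratio
  set r : ℝ := c / d with hr
  have hr0 : 0 < r := div_pos hc hd0
  have hcr : c = r * d := by rw [hr]; field_simp
  have hA : (N : ℝ) * (N + 1) * r ≤ ε / 48 := by
    rw [div_le_iff₀ hε] at hd'
    rw [hr, mul_div_assoc', div_le_iff₀ hd0]
    nlinarith
  set A : ℝ := (N : ℝ) * (N + 1) * r with hAdef
  have hA0 : 0 < A := by positivity
  have hNr : (N : ℝ) * r ≤ A / 2 := by
    rw [hAdef]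
    have : 0 ≤ (N : ℝ) * r := by positivity
    nlinarith
  have hrA : r ≤ A / 2 := by
    have : r ≤ (N : ℝ) * r := by nlinarith
    linarith
  have hg1 : ∀ x, |Gn N W x| ≤ A / 4 := by
    intro x
    refine (HD.BA.Gn_abs hd N W c hW x).trans ?_
    rw [div_le_iff₀ (by positivity), hcr]
    nlinarith
  have hU : ∀ x, |Uv N v W x| ≤ (N + 1) * c ^ 2 / (2 * d) := by
    intro x
    have h := HD.BA.Gn_abs hd N W c hW x
    unfold Uv
    refine (abs_sub _ _).trans ?_
    have h2 : |v / (2 * d)| = v / (2 * d) := abs_of_nonneg (by positivity)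
    rw [abs_mul, h2]
    have h3 : |W x| * |Gn N W x| ≤ c * (N * c / (2 * d)) :=
      mul_le_mul (hW x) h (abs_nonneg _) hc.le
    have h4 : v / (2 * d) ≤ c ^ 2 / (2 * d) := by gcongr
    have h5 : (N + 1) * c ^ 2 / (2 * d) = c * (N * c / (2 * d)) + c ^ 2 / (2 * d) := by ring
    rw [h5]
    linarith
  have hg2 : ∀ x, |Gn N (Uv N v W) x| ≤ A * r / 4 := by
    intro x
    refine (HD.BA.Gn_abs hd N (Uv N v W) _ hU x).trans (le_of_eq ?_)
    rw [hAdef, hcr]
    field_simp
    ring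
  have hg2' : ∀ x, |Gn N (Uv N v W) x| ≤ A ^ 2 / 8 := by
    intro x
    refine (hg2 x).trans ?_
    nlinarith
  have hlow : ∀ x, 1 - ε / 64 ≤ ph N v W x := by
    intro x
    have h1 := abs_le.1 (hg1 x)
    have h2 := abs_le.1 (hg2' x)
    unfold ph
    have h3 : A ^ 2 ≤ ε / 48 := by nlinarith
    linarith [h1.2, h2.1]
  refine ⟨fun y => by have := hlow y; linarith, ?_⟩
  intro x h1 h2
  rw [ph_id hd N v W x]
  set q : ℝ := v / (2 * d) with hq
  have hq0 : 0 < q := by positivity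
  have hη2 : η ≤ ε / 16 * q := by
    refine hη'.trans (le_of_eq ?_)
    rw [hq]; field_simp; ring
  have k2 : |W x * Gn N (Uv N v W) x| ≤ ε / 32 * q := by
    rw [abs_mul]
    have h3 : |W x| * |Gn N (Uv N v W) x| ≤ c * (A * r / 4) :=
      mul_le_mul (hW x) (hg2 x) (abs_nonneg _) hc.le
    refine h3.trans ?_
    have h4 : c * (A * r / 4) = A * (c ^ 2 / (4 * d)) := by rw [hr]; ring
    rw [h4]
    have h5 : c ^ 2 / (4 * d) ≤ 3 / 2 * q := by
      rw [hq, div_le_iff₀ (by positivity)]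
      have : 3 / 2 * (v / (2 * d)) * (4 * d) = 3 * v := by field_simp; ring
      rw [this]; exact hcv
    calc A * (c ^ 2 / (4 * d)) ≤ A * (3 / 2 * q) := mul_le_mul_of_nonneg_left h5 hA0.le
      _ ≤ ε / 48 * (3 / 2 * q) := mul_le_mul_of_nonneg_right hA (by positivity)
      _ = ε / 32 * q := by ring
  have l1 := abs_le.1 h1
  have l2 := abs_le.1 k2
  have e2 : (1 + ε / 2) * v / (2 * d) = (1 + ε / 2) * q := by rw [hq]; ring
  rw [e2]
  have hp := hlow x
  have m1 : (1 + ε / 2) * q * (1 - ε / 64) ≤ (1 + ε / 2) * q * ph N v W x :=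
    mul_le_mul_of_nonneg_left hp (by positivity)
  have m2 : (1 + 5 * ε / 32) * q ≤ (1 + ε / 2) * q * (1 - ε / 64) := by
    have : (1 + 5 * ε / 32) ≤ (1 + ε / 2) * (1 - ε / 64) := by nlinarith
    calc (1 + 5 * ε / 32) * q ≤ ((1 + ε / 2) * (1 - ε / 64)) * q :=
          mul_le_mul_of_nonneg_right this hq0.le
      _ = _ := by ring
  have m3 : (1 + 5 * ε / 32) * q = q + ε / 16 * q + ε / 16 * q + ε / 32 * q := by ring
  nlinarith [l1.1, l2.1]

end Pool.Agent.H4R2.HU.US
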