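import Pool.Agent.H4R2.HU.Defs

/-!
# One-sided tail bound from the exponential moment bound
-/

set_option autoImplicit false

open scoped BigOperators ENNReal
open MeasureTheory

namespace Pool.Agent.H4R2.HU.UT

open Pool.Agent.H4R2.LO (Zd dd adj AL bx FB cut Reg)
open Pool.Agent.H4R2.HD (Av Gn ind)

theorem UT (hUM : S_UM) : S_UT := by
  intro ι _ _ μ _ f c S t hf hb hinf hS hS0 ht
  obtain ⟨M, hM⟩ := hb
  set P : Measure (ι → ℝ) := Measure.pi fun _ : ι => μ with hP
  set a := ∫ ω', f ω' ∂P with ha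
  set l : ℝ := 4 * t / S with hl
  have hl0 : 0 ≤ l := by positivity
  have hint : Integrable (fun ω => Real.exp (l * (f ω - a))) P := by
    refine Integrable.of_bound (C := Real.exp (l * (M - a))) ?_ ?_
    · exact ((Real.measurable_exp.comp ((hf.sub_const a).const_mul l))).aestronglyMeasurable
    · refine Filter.Eventually.of_forall fun ω => ?_
      rw [Real.norm_eq_abs, abs_of_pos (Real.exp_pos _)]
      apply Real.exp_le_exp.2
      apply mul_le_mul_of_nonneg_left _ hl0
      linarith [le_abs_self (f ω), hM ω]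
  have hmc := hUM μ (fun ω => l * f ω) (fun z => l * c z) (hf.const_mul l)
    ⟨l * M, fun ω => by
      rw [abs_mul, abs_of_nonneg hl0]
      exact mul_le_mul_of_nonneg_left (hM ω) hl0⟩
    (by
      intro z ω s t'
      have e : l * f (Function.update ω z s) - l * f (Function.update ω z t') =
        l * (f (Function.update ω z s) - f (Function.update ω z t')) := by ring
      show |l * f (Function.update ω z s) - l * f (Function.update ω z t')| ≤ l * c z
      rw [e, abs_mul, abs_of_nonneg hl0]
      exact mul_le_mul_of_nonneg_left (hinf z ω s t') hl0)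
  have hmean : ∫ ω', l * f ω' ∂P = l * a := integral_const_mul _ _
  rw [← hP] at hmc
  simp only [hmean] at hmc
  have hmc2 : ∫ ω, Real.exp (l * (f ω - a)) ∂P ≤ Real.exp (2 * t ^ 2 / S) := by
    have e1 : (fun ω => Real.exp (l * (f ω - a))) = fun ω => Real.exp (l * f ω - l * a) := by
      funext ω; rw [mul_sub]
    rw [e1]
    refine hmc.trans (Real.exp_le_exp.2 ?_)
    have e2 : ∑ z, (l * c z) ^ 2 = l ^ 2 * ∑ z, c z ^ 2 := by
      rw [Finset.mul_sum]; exact Finset.sum_congr rfl fun z _ => by ring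
    rw [e2]
    have e3 : l ^ 2 * ∑ z, c z ^ 2 ≤ l ^ 2 * S := mul_le_mul_of_nonneg_left hS (by positivity)
    have e4 : l ^ 2 * S / 8 = 2 * t ^ 2 / S := by
      rw [hl]; field_simp; ring
    linarith
  have hmk := mul_meas_ge_le_integral_of_nonneg (μ := P)
    (f := fun ω => Real.exp (l * (f ω - a)))
    (Filter.Eventually.of_forall fun ω => (Real.exp_pos _).le) hint (Real.exp (l * t))
  have hsub : {ω | a + t < f ω} ⊆ {ω | Real.exp (l * t) ≤ Real.exp (l * (f ω - a))} := by
    intro ω hω
    simp only [Set.mem_ofPred_eq] at hω ⊢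
    exact Real.exp_le_exp.2 (mul_le_mul_of_nonneg_left (by linarith) hl0)
  have hmono : P.real {ω | a + t < f ω} ≤
      P.real {ω | Real.exp (l * t) ≤ Real.exp (l * (f ω - a))} := measureReal_mono hsub
  have h1 : Real.exp (l * t) * P.real {ω | a + t < f ω} ≤ Real.exp (2 * t ^ 2 / S) :=
    (mul_le_mul_of_nonneg_left hmono (Real.exp_pos _).le).trans (hmk.trans hmc2)
  have e5 : l * t = 2 * (2 * t ^ 2 / S) := by rw [hl]; ring
  rw [e5] at h1
  have h2 : P.real {ω | a + t < f ω} ≤
      Real.exp (2 * t ^ 2 / S) / Real.exp (2 * (2 * t ^ 2 / S)) := by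
    rw [le_div_iff₀ (Real.exp_pos _)]; linarith
  refine h2.trans (le_of_eq ?_)
  rw [← Real.exp_sub]; congr 1; ring

end Pool.Agent.H4R2.HU.UT
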